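import Mathlib

/-!
Moving inside a cube along kernel directions.
-/

namespace Pool.Agent.R6.Trade

open Finset

variable {E : Type*} [Fintype E] [DecidableEq E]

/-- fractional coordinates -/
noncomputable def frac (t : E → ℝ) : Finset E := by
  classical exact univ.filter (fun e => 0 < t e ∧ t e < 1)

omit [DecidableEq E] in
lemma mem_frac {t : E → ℝ} {e : E} : e ∈ frac t ↔ 0 < t e ∧ t e < 1 := by
  classical
  simp [frac]

def InCube (t : E → ℝ) : Prop := ∀ e, 0 ≤ t e ∧ t e ≤ 1

/-- One step along a direction supported in the fractional part. -/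
lemma exists_step (t d : E → ℝ) (ht : InCube t) (hd : d ≠ 0) (hsupp : ∀ e, d e ≠ 0 → e ∈ frac t) :
    ∃ s : ℝ, 0 < s ∧ InCube (fun e => t e + s * d e) ∧
      frac (fun e => t e + s * d e) ⊂ frac t := by
  classical
  set S : Finset E := univ.filter (fun e => d e ≠ 0) with hS
  have hSne : S.Nonempty := by
    by_contra h
    apply hd
    funext e
    by_contra he
    exact h ⟨e, by simp [hS]; exact he⟩
  set r : E → ℝ := fun e => if 0 < d e then (1 - t e) / d e else t e / (- d e) with hr
  obtain ⟨e0, he0, hmin⟩ := exists_min_image S r hSne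
  have hde0 : d e0 ≠ 0 := by simpa [hS] using he0
  have hpos : ∀ e ∈ S, 0 < r e := by
    intro e he
    have hde : d e ≠ 0 := by simpa [hS] using he
    have hf := mem_frac.1 (hsupp e hde)
    by_cases h : 0 < d e
    · simp only [hr, h, if_true]
      exact div_pos (by linarith) h
    · simp only [hr, h, if_false]
      have : d e < 0 := lt_of_le_of_ne (not_lt.1 h) hde
      exact div_pos hf.1 (by linarith)
  have hs0 := hpos e0 he0
  have hcube : ∀ e, 0 ≤ t e + r e0 * d e ∧ t e + r e0 * d e ≤ 1 := by
    intro e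
    by_cases hde : d e = 0
    · rw [hde]; simpa using ht e
    · have heS : e ∈ S := by simp [hS, hde]
      have hle := hmin e heS
      have hf := mem_frac.1 (hsupp e hde)
      by_cases h : 0 < d e
      · have h1 : r e = (1 - t e) / d e := by simp [hr, h]
        rw [h1, le_div_iff₀ h] at hle
        exact ⟨by nlinarith [mul_pos hs0 h], by linarith⟩
      · have hneg : d e < 0 := lt_of_le_of_ne (not_lt.1 h) hde
        have h1 : r e = t e / (- d e) := by simp [hr, h]
        rw [h1, le_div_iff₀ (by linarith)] at hle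
        exact ⟨by linarith, by nlinarith [mul_pos hs0 (neg_pos.2 hneg)]⟩
  refine ⟨r e0, hs0, hcube, ?_⟩
  refine (ssubset_iff_of_subset ?_).2 ⟨e0, hsupp e0 hde0, ?_⟩
  · intro e he
    by_contra hne
    have hde : d e = 0 := by
      by_contra h
      exact hne (hsupp e h)
    have := mem_frac.1 he
    simp only [hde, mul_zero, add_zero] at this
    exact hne (mem_frac.2 this)
  · intro hmem
    have hm : 0 < t e0 + r e0 * d e0 ∧ t e0 + r e0 * d e0 < 1 :=
      (mem_frac (t := fun e => t e + r e0 * d e)).1 hmem
    by_cases h : 0 < d e0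
    · have h1 : r e0 = (1 - t e0) / d e0 := by simp [hr, h]
      rw [h1, div_mul_cancel₀ _ hde0] at hm
      linarith [hm.2]
    · have h1 : r e0 = t e0 / (- d e0) := by simp [hr, h]
      have h2 : t e0 / (- d e0) * d e0 = - t e0 := by
        field_simp
      rw [h1, h2] at hm
      linarith [hm.1]

/-- Kernel direction with support in a given finset. -/
lemma exists_ker {m : ℕ} (F : Finset E) (L : (E → ℝ) →ₗ[ℝ] (Fin m → ℝ)) (hF : m < F.card) :
    ∃ d : E → ℝ, d ≠ 0 ∧ (∀ e, d e ≠ 0 → e ∈ F) ∧ L d = 0 := by
  classical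
  -- extension map
  let ext : (F → ℝ) →ₗ[ℝ] (E → ℝ) :=
    { toFun := fun g e => if h : e ∈ F then g ⟨e, h⟩ else 0
      map_add' := by
        intro a b; funext e
        by_cases h : e ∈ F <;> simp [h]
      map_smul' := by
        intro c a; funext e
        by_cases h : e ∈ F <;> simp [h] }
  have hker : LinearMap.ker (L.comp ext) ≠ ⊥ := by
    apply LinearMap.ker_ne_bot_of_finrank_lt
    simpa using hF
  obtain ⟨g, hg, hg0⟩ := Submodule.exists_mem_ne_zero_of_ne_bot hker
  refine ⟨ext g, ?_, ?_, ?_⟩
  · intro h0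
    apply hg0
    funext ⟨e, he⟩
    have := congrFun h0 e
    simpa [ext, he] using this
  · intro e he
    by_contra h
    apply he
    simp [ext, h]
  · simpa using hg

/-- Reduction of the number of fractional coordinates. -/
lemma exists_reduce {m : ℕ} (L : (E → ℝ) →ₗ[ℝ] (Fin m → ℝ)) (N : ℕ) :
    ∀ t : E → ℝ, InCube t → (frac t).card ≤ N →
      ∃ t' : E → ℝ, InCube t' ∧ L t' = L t ∧ (frac t').card ≤ m := by
  induction N with
  | zero =>
    intro t ht h
    exact ⟨t, ht, rfl, by omega⟩
  | succ N ih =>
    intro t ht h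
    by_cases hc : (frac t).card ≤ m
    · exact ⟨t, ht, rfl, hc⟩
    · push Not at hc
      obtain ⟨d, hd, hsupp, hL⟩ := exists_ker (frac t) L hc
      obtain ⟨s, -, hcube, hss⟩ := exists_step t d ht hd hsupp
      have hlt := card_lt_card hss
      obtain ⟨t', ht', hLt', hcard⟩ := ih _ hcube (by omega)
      refine ⟨t', ht', ?_, hcard⟩
      rw [hLt']
      have : (fun e => t e + s * d e) = t + s • d := by
        funext e; simp
      rw [this, map_add, map_smul, hL]
      simp

end Pool.Agent.R6.Trade
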