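import Pool.Agent.R6.Trade.Local
import Pool.Agent.R6.Trade.LP

/-!
The core statement: 2j points of a three-dimensional box, divided into two halves with equal sums,
j at least four, admit a mixed set of j+1 points whose sum exceeds the half sum by a point of the
box.
-/

namespace Pool.Agent.R6.Trade

open Finset

variable {E : Type*} [Fintype E] [DecidableEq E]

/-- ones -/
noncomputable def ones (t : E → ℝ) : Finset E := by
  classical exact univ.filter (fun e => t e = 1)

/-- zeros -/
noncomputable def zers (t : E → ℝ) : Finset E := by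
  classical exact univ.filter (fun e => t e = 0)

omit [DecidableEq E] in
lemma mem_ones {t : E → ℝ} {e : E} : e ∈ ones t ↔ t e = 1 := by
  classical
  simp [ones]

omit [DecidableEq E] in
lemma mem_zers {t : E → ℝ} {e : E} : e ∈ zers t ↔ t e = 0 := by
  classical
  simp [zers]

omit [DecidableEq E] in
lemma cases_cube {t : E → ℝ} (ht : InCube t) (e : E) : e ∈ ones t ∨ e ∈ zers t ∨ e ∈ frac t := by
  rcases (ht e).1.eq_or_lt with h | h
  · exact Or.inr (Or.inl (mem_zers.2 h.symm))
  · rcases (ht e).2.eq_or_lt with h' | h'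
    · exact Or.inl (mem_ones.2 h')
    · exact Or.inr (Or.inr (mem_frac.2 ⟨h, h'⟩))

omit [DecidableEq E] in
lemma disj_ones_frac (t : E → ℝ) : Disjoint (ones t) (frac t) := by
  rw [disjoint_left]
  intro e h1 h2
  have := mem_ones.1 h1
  have := (mem_frac.1 h2).2
  linarith

/-- A weighted sum over everything splits into the sum over the ones and the weighted sum over the
fractional part. -/
lemma sum_split {t : E → ℝ} (ht : InCube t) (g : E → ℝ) :
    ∑ e, t e * g e = ∑ e ∈ ones t, g e + ∑ e ∈ frac t, t e * g e := by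
  have h1 : ∑ e ∈ ones t, g e = ∑ e ∈ ones t, t e * g e :=
    sum_congr rfl (fun e he => by rw [mem_ones.1 he, one_mul])
  rw [h1, ← sum_union (disj_ones_frac t)]
  symm
  apply sum_subset (subset_univ _)
  intro e _ he
  rw [mem_union, not_or] at he
  rcases cases_cube ht e with h | h | h
  · exact absurd h he.1
  · rw [mem_zers.1 h, zero_mul]
  · exact absurd h he.2

lemma sum_split_one {t : E → ℝ} (ht : InCube t) :
    ∑ e, t e = (ones t).card + ∑ e ∈ frac t, t e := by
  have := sum_split ht (fun _ => (1 : ℝ))
  simpa using this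

/-- the situation -/
structure Sit (j : ℕ) (X : Finset E) (n : Fin 3 → ℝ) (p : E → Fin 3 → ℝ) (s : Fin 3 → ℝ) :
    Prop where
  hj : 4 ≤ j
  hX : X.card = j
  hXc : Xᶜ.card = j
  p0 : ∀ e i, 0 ≤ p e i
  p1 : ∀ e i, p e i ≤ n i
  sX : ∀ i, ∑ e ∈ X, p e i = s i
  sXc : ∀ i, ∑ e ∈ Xᶜ, p e i = s i
  H : ∀ U : Finset E, U.card = j + 1 →
    (∀ i, s i ≤ ∑ e ∈ U, p e i ∧ ∑ e ∈ U, p e i ≤ s i + n i) → X ⊆ U ∨ Xᶜ ⊆ U

variable {j : ℕ} {X : Finset E} {n : Fin 3 → ℝ} {p : E → Fin 3 → ℝ} {s : Fin 3 → ℝ}

lemma Sit.cardE (h : Sit j X n p s) : Fintype.card E = 2 * j := by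
  have := card_add_card_compl X
  rw [h.hX, h.hXc] at this
  omega

lemma Sit.H' (h : Sit j X n p s) (U : Finset E) (hU : U.card + 1 = j)
    (hb : ∀ i, s i - n i ≤ ∑ e ∈ U, p e i ∧ ∑ e ∈ U, p e i ≤ s i) : U ⊆ X ∨ U ⊆ Xᶜ := by
  have hc : Uᶜ.card = j + 1 := by
    rw [card_compl, h.cardE]; omega
  have htot : ∀ i, ∑ e, p e i = 2 * s i := by
    intro i
    have := sum_add_sum_compl X (fun e => p e i)
    rw [h.sX, h.sXc] at this
    linarith
  have := h.H Uᶜ hc (fun i => by
    have h1 := sum_add_sum_compl U (fun e => p e i)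
    have h2 := htot i
    have h3 := hb i
    constructor <;> linarith)
  rcases this with h1 | h1
  · right
    exact subset_compl_comm.1 h1
  · left
    have := compl_subset_compl.1 h1
    exact this

/-- near X or near the complement -/
def Near (j : ℕ) (X : Finset E) (v : E → ℝ) : Prop :=
  (((j : ℝ) - 2 < ∑ e ∈ X, v e) ∧ (ones v ⊆ X ∨ zers v ⊆ Xᶜ)) ∨
  ((∑ e ∈ X, v e < 2) ∧ (ones v ⊆ Xᶜ ∨ zers v ⊆ X))

lemma sum_ge_card {A B : Finset E} {v : E → ℝ} (hv : InCube v) (hAB : A ⊆ B)
    (hA : ∀ e ∈ A, v e = 1) : (A.card : ℝ) ≤ ∑ e ∈ B, v e := by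
  calc (A.card : ℝ) = ∑ e ∈ A, v e := by rw [sum_congr rfl hA]; simp
    _ ≤ ∑ e ∈ B, v e := sum_le_sum_of_subset_of_nonneg hAB (fun e _ _ => (hv e).1)

lemma sum_X_compl {v : E → ℝ} {c : ℝ} (hv : ∑ e, v e = c) (X : Finset E) :
    ∑ e ∈ Xᶜ, v e = c - ∑ e ∈ X, v e := by
  have := sum_add_sum_compl X v
  linarith

/-- upper side: if a set B is contained in the union of the ones and part of the fractional
coordinates, its defect is small -/
lemma defect_le {v : E → ℝ} (hv : InCube v) {B G : Finset E}
    (hB : B ⊆ ones v ∪ G) : (B.card : ℝ) - ∑ e ∈ B, v e ≤ ∑ e ∈ G, (1 - v e) := by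
  have h1 : (B.card : ℝ) - ∑ e ∈ B, v e = ∑ e ∈ B, (1 - v e) := by
    rw [sum_sub_distrib]; simp
  rw [h1]
  calc ∑ e ∈ B, (1 - v e) ≤ ∑ e ∈ ones v ∪ G, (1 - v e) :=
        sum_le_sum_of_subset_of_nonneg hB (fun e _ _ => by linarith [(hv e).2])
    _ = ∑ e ∈ G, (1 - v e) := by
        symm
        apply sum_subset subset_union_right
        intro e he1 he2
        rcases mem_union.1 he1 with h | h
        · rw [mem_ones.1 h]; ring
        · exact absurd h he2

lemma zers_subset_of {v : E → ℝ} {B G : Finset E} (hG : ∀ e ∈ G, v e ≠ 0)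
    (hB : B ⊆ ones v ∪ G) : zers v ⊆ Bᶜ := by
  intro e he
  rw [mem_compl]
  intro heB
  rcases mem_union.1 (hB heB) with h | h
  · rw [mem_zers] at he
    rw [mem_ones] at h
    linarith
  · exact hG e h (mem_zers.1 he)

lemma near_of_low (h : Sit j X n p s) {v : E → ℝ} (hv : InCube v) (hsum : ∑ e, v e = j)
    {U : Finset E} (hU : U.card + 1 = j) (hO : ones v ⊆ U)
    (hlow : (j : ℝ) - 2 < ∑ e ∈ U, v e)
    (hb : ∀ i, s i - n i ≤ ∑ e ∈ U, p e i ∧ ∑ e ∈ U, p e i ≤ s i) : Near j X v := by
  have hmono : ∀ B : Finset E, U ⊆ B → ∑ e ∈ U, v e ≤ ∑ e ∈ B, v e := fun B hB =>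
    sum_le_sum_of_subset_of_nonneg hB (fun e _ _ => (hv e).1)
  rcases h.H' U hU hb with h1 | h1
  · left
    exact ⟨lt_of_lt_of_le hlow (hmono X h1), Or.inl (hO.trans h1)⟩
  · right
    have h2 := hmono _ h1
    rw [sum_X_compl hsum] at h2
    exact ⟨by linarith, Or.inl (hO.trans h1)⟩

lemma near_of_high (h : Sit j X n p s) {v : E → ℝ} (hv : InCube v) (hsum : ∑ e, v e = j)
    {G : Finset E} (hG : ∀ e ∈ G, v e ≠ 0)
    (hU : (ones v ∪ G).card = j + 1) (hhigh : ∑ e ∈ G, (1 - v e) < 2)
    (hb : ∀ i, s i ≤ ∑ e ∈ ones v ∪ G, p e i ∧ ∑ e ∈ ones v ∪ G, p e i ≤ s i + n i) :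
    Near j X v := by
  rcases h.H _ hU hb with h1 | h1
  · left
    have h2 := defect_le hv h1
    rw [h.hX] at h2
    exact ⟨by linarith, Or.inr (zers_subset_of hG h1)⟩
  · right
    have h2 := defect_le hv h1
    rw [h.hXc, sum_X_compl hsum] at h2
    refine ⟨by linarith, Or.inr ?_⟩
    have := zers_subset_of hG h1
    rwa [compl_compl] at this

/-- The endpoint lemma. -/
lemma endpoint (h : Sit j X n p s) {v : E → ℝ} (hv : InCube v) (hsum : ∑ e, v e = j)
    (hp : ∀ i, ∑ e, v e * p e i = s i) (hF : (frac v).card ≤ 4) : Near j X v := by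
  have hsp1 := sum_split_one hv
  rw [hsum] at hsp1
  have hspp : ∀ i, s i = ∑ e ∈ ones v, p e i + ∑ e ∈ frac v, v e * p e i := by
    intro i
    rw [← hp i]
    exact sum_split hv (fun e => p e i)
  have hf0 : ∀ e ∈ frac v, 0 < v e := fun e he => (mem_frac.1 he).1
  have hf1 : ∀ e ∈ frac v, v e < 1 := fun e he => (mem_frac.1 he).2
  have hfne : ∀ e ∈ frac v, v e ≠ 0 := fun e he => (hf0 e he).ne'
  have hMhi : ∀ i, ∑ e ∈ frac v, v e * p e i ≤ (∑ e ∈ frac v, v e) * n i := by
    intro i
    rw [sum_mul]
    exact sum_le_sum (fun e he => mul_le_mul_of_nonneg_left (h.p1 e i) (hf0 e he).le)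
  have hMlo : ∀ i, 0 ≤ ∑ e ∈ frac v, v e * p e i := fun i =>
    sum_nonneg (fun e he => mul_nonneg (hf0 e he).le (h.p0 e i))
  -- theta = 1
  have T1 : ∑ e ∈ frac v, v e = 1 → Near j X v := by
    intro hth
    have hc : ((ones v).card : ℝ) + 1 = j := by rw [hsp1, hth]
    have hc' : (ones v).card + 1 = j := by exact_mod_cast hc
    refine near_of_low h hv hsum (U := ones v) hc' (Subset.refl _) ?_ ?_
    · have : ∑ e ∈ ones v, v e = (ones v).card := by
        rw [sum_congr rfl (fun e he => mem_ones.1 he)]; simp
      rw [this]; linarith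
    · intro i
      have h1 := hspp i
      have h2 := hMhi i
      have h3 := hMlo i
      rw [hth] at h2
      constructor <;> linarith
  -- theta = m - 1
  have T2 : ∑ e ∈ frac v, v e = (frac v).card - 1 → Near j X v := by
    intro hth
    have hc : ((ones v).card : ℝ) + (frac v).card = j + 1 := by linarith
    have hc' : (ones v ∪ frac v).card = j + 1 := by
      rw [card_union_of_disjoint (disj_ones_frac v)]
      exact_mod_cast hc
    have h1m : ∑ e ∈ frac v, (1 - v e) = 1 := by
      rw [sum_sub_distrib, hth]; simp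
    refine near_of_high h hv hsum hfne hc' (by rw [h1m]; norm_num) ?_
    intro i
    rw [sum_union (disj_ones_frac v)]
    have h1 := hspp i
    have h2 : ∑ e ∈ frac v, p e i = ∑ e ∈ frac v, v e * p e i + ∑ e ∈ frac v, (1 - v e) * p e i := by
      rw [← sum_add_distrib]
      exact sum_congr rfl (fun e _ => by ring)
    have h3 : 0 ≤ ∑ e ∈ frac v, (1 - v e) * p e i :=
      sum_nonneg (fun e he => mul_nonneg (by linarith [hf1 e he]) (h.p0 e i))
    have h4 : ∑ e ∈ frac v, (1 - v e) * p e i ≤ n i := by
      have : ∑ e ∈ frac v, (1 - v e) * p e i ≤ (∑ e ∈ frac v, (1 - v e)) * n i := by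
        rw [sum_mul]
        exact sum_le_sum (fun e he => mul_le_mul_of_nonneg_left (h.p1 e i) (by linarith [hf1 e he]))
      rw [h1m, one_mul] at this
      exact this
    constructor <;> linarith
  -- size of theta
  have hthint : ∑ e ∈ frac v, v e = ((j : ℤ) - (ones v).card : ℤ) := by
    push_cast
    linarith
  by_cases hemp : frac v = ∅
  · -- integral point
    rw [hemp] at hspp hsp1
    simp only [sum_empty, add_zero] at hspp hsp1
    have hcO : (ones v).card = j := by exact_mod_cast hsp1.symm
    have hzc : ∀ e, e ∉ ones v → v e = 0 := by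
      intro e he
      rcases cases_cube hv e with h' | h' | h'
      · exact absurd h' he
      · exact mem_zers.1 h'
      · rw [hemp] at h'; exact absurd h' (notMem_empty e)
    have hzers : zers v = (ones v)ᶜ := by
      ext e
      rw [mem_compl, mem_zers]
      constructor
      · intro h0 h1
        rw [mem_ones] at h1; linarith
      · exact hzc e
    have hcZ : (zers v).card = j := by
      rw [hzers, card_compl, h.cardE, hcO]; omega
    by_cases hOX : ones v ⊆ X
    · have heq : ones v = X := eq_of_subset_of_card_le hOX (by rw [h.hX, hcO])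
      left
      refine ⟨?_, Or.inl hOX⟩
      have : ∑ e ∈ X, v e = j := by
        rw [← heq, sum_congr rfl (fun e he => mem_ones.1 he)]; simp [hcO]
      rw [this]; linarith
    · by_cases hOXc : ones v ⊆ Xᶜ
      · right
        refine ⟨?_, Or.inl hOXc⟩
        have : ∑ e ∈ X, v e = 0 := by
          apply sum_eq_zero
          intro e he
          apply hzc
          intro h'
          exact (mem_compl.1 (hOXc h')) he
        rw [this]; norm_num
      · exfalso
        -- choose e in the zeros
        have hZX : (zers v ∩ X).Nonempty := by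
          by_contra hne
          rw [not_nonempty_iff_eq_empty] at hne
          apply hOX
          have hsub : X ⊆ ones v := by
            intro e he
            by_contra h'
            have : e ∈ zers v ∩ X := mem_inter.2 ⟨by rw [hzers]; exact mem_compl.2 h', he⟩
            rw [hne] at this
            exact notMem_empty e this
          have : X = ones v := eq_of_subset_of_card_le hsub (by rw [h.hX, hcO])
          rw [← this]
        have hZXc : (zers v ∩ Xᶜ).Nonempty := by
          by_contra hne
          rw [not_nonempty_iff_eq_empty] at hne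
          apply hOXc
          have hsub : Xᶜ ⊆ ones v := by
            intro e he
            by_contra h'
            have : e ∈ zers v ∩ Xᶜ := mem_inter.2 ⟨by rw [hzers]; exact mem_compl.2 h', he⟩
            rw [hne] at this
            exact notMem_empty e this
          have : Xᶜ = ones v := eq_of_subset_of_card_le hsub (by rw [h.hXc, hcO])
          rw [← this]
        have hcs : (zers v ∩ X).card + (zers v ∩ Xᶜ).card = j := by
          rw [← hcZ, ← card_union_of_disjoint, ← inter_union_distrib_left, union_compl, inter_univ]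
          exact disjoint_of_subset_left inter_subset_right
            (disjoint_of_subset_right inter_subset_right disjoint_compl_right)
        have key : ∃ e ∈ zers v, (∃ a ∈ zers v, a ≠ e ∧ a ∈ X) ∧ (∃ b ∈ zers v, b ≠ e ∧ b ∈ Xᶜ) := by
          obtain ⟨a, ha⟩ := hZX
          obtain ⟨b, hb⟩ := hZXc
          have ha' := mem_inter.1 ha
          have hb' := mem_inter.1 hb
          have hj4 := h.hj
          by_cases h2 : 2 ≤ (zers v ∩ X).card
          · obtain ⟨c, hc, hca⟩ := exists_mem_ne (by omega : 1 < (zers v ∩ X).card) a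
            have hc' := mem_inter.1 hc
            refine ⟨c, hc'.1, ⟨a, ha'.1, hca.symm, ha'.2⟩, ⟨b, hb'.1, ?_, hb'.2⟩⟩
            rintro rfl
            exact (mem_compl.1 hb'.2) hc'.2
          · obtain ⟨c, hc, hcb⟩ := exists_mem_ne (by omega : 1 < (zers v ∩ Xᶜ).card) b
            have hc' := mem_inter.1 hc
            refine ⟨c, hc'.1, ⟨a, ha'.1, ?_, ha'.2⟩, ⟨b, hb'.1, hcb.symm, hb'.2⟩⟩
            rintro rfl
            exact (mem_compl.1 hc'.2) ha'.2
        obtain ⟨e, he, ⟨a, ha, hae, haX⟩, ⟨b, hb, hbe, hbX⟩⟩ := key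
        have heO : e ∉ ones v := by rw [hzers] at he; exact mem_compl.1 he
        have haO : a ∉ ones v := by rw [hzers] at ha; exact mem_compl.1 ha
        have hbO : b ∉ ones v := by rw [hzers] at hb; exact mem_compl.1 hb
        rcases h.H (insert e (ones v)) (by rw [card_insert_of_notMem heO, hcO]) (fun i => by
          rw [sum_insert heO]
          have h1 := hspp i
          have h2 := h.p0 e i
          have h3 := h.p1 e i
          constructor <;> linarith) with h1 | h1
        · rcases mem_insert.1 (h1 haX) with h2 | h2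
          · exact hae h2
          · exact haO h2
        · rcases mem_insert.1 (h1 hbX) with h2 | h2
          · exact hbe h2
          · exact hbO h2
  · have hne : (frac v).Nonempty := nonempty_iff_ne_empty.2 hemp
    have hth0 : 0 < ∑ e ∈ frac v, v e := sum_pos hf0 hne
    have hth1 : ∑ e ∈ frac v, v e < (frac v).card := by
      have : ∑ e ∈ frac v, v e < ∑ e ∈ frac v, (1 : ℝ) := sum_lt_sum_of_nonempty hne hf1
      simpa using this
    set th : ℤ := (j : ℤ) - (ones v).card with hth
    have hth0' : 0 < th := by
      have : (0 : ℝ) < (th : ℝ) := by rw [← hthint]; exact hth0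
      exact_mod_cast this
    have hth1' : th < (frac v).card := by
      have : (th : ℝ) < ((frac v).card : ℝ) := by rw [← hthint]; exact hth1
      exact_mod_cast this
    by_cases c1 : th = 1
    · apply T1
      rw [hthint, c1]; norm_num
    · by_cases c2 : th = (frac v).card - 1
      · apply T2
        rw [hthint, c2]; push_cast; ring
      · have hm4 : (frac v).card = 4 := by omega
        have hth2 : th = 2 := by omega
        have hs2 : ∑ e ∈ frac v, v e = 2 := by rw [hthint, hth2]; norm_num
        have hcO : (ones v).card + 2 = j := by omega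
        rcases local_lemma (frac v) hm4 v hf0 hf1 hs2 n p h.p0 h.p1 with ⟨k, hk, hb⟩ | ⟨k, hk, hb⟩
        · have hkO : k ∉ ones v := fun h' => (disjoint_left.1 (disj_ones_frac v)) h' hk
          refine near_of_low h hv hsum (U := insert k (ones v))
            (by rw [card_insert_of_notMem hkO]; omega) (subset_insert _ _) ?_ ?_
          · rw [sum_insert hkO]
            have : ∑ e ∈ ones v, v e = (ones v).card := by
              rw [sum_congr rfl (fun e he => mem_ones.1 he)]; simp
            rw [this]
            have h1 := hf0 k hk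
            have h2 : ((ones v).card : ℝ) + 2 = j := by exact_mod_cast hcO
            linarith
          · intro i
            rw [sum_insert hkO]
            have h1 := hspp i
            have h2 := hb i
            constructor <;> linarith
        · have hsubk : frac v \ {k} ⊆ frac v := sdiff_subset
          have hdk : Disjoint (ones v) (frac v \ {k}) :=
            disjoint_of_subset_right hsubk (disj_ones_frac v)
          have hsumk : ∀ g : E → ℝ, ∑ e ∈ frac v \ {k}, g e = ∑ e ∈ frac v, g e - g k := by
            intro g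
            rw [← sum_sdiff (singleton_subset_iff.2 hk) (f := g)]
            simp
          refine near_of_high h hv hsum (G := frac v \ {k}) (fun e he => hfne e (hsubk he)) ?_ ?_ ?_
          · rw [card_union_of_disjoint hdk, card_sdiff_of_subset (singleton_subset_iff.2 hk), hm4,
              card_singleton]
            omega
          · rw [hsumk]
            have h1 : ∑ e ∈ frac v, (1 - v e) = 2 := by
              rw [sum_sub_distrib, hs2]; simp [hm4]; norm_num
            rw [h1]
            linarith [hf1 k hk]
          · intro i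
            rw [sum_union hdk, hsumk (fun e => p e i)]
            have h1 := hspp i
            have h2 := hb i
            have h3 : ∑ e ∈ frac v, p e i =
                ∑ e ∈ frac v, v e * p e i + ∑ e ∈ frac v, (1 - v e) * p e i := by
              rw [← sum_add_distrib]
              exact sum_congr rfl (fun e _ => by ring)
            constructor <;> linarith

end Pool.Agent.R6.Trade
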