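import Mathlib

/-!
Simple games: weightedness, desirability, completeness, number of types, trade robustness.
-/

namespace Pool.Agent.R6.Trade

open Finset

variable {N : Type} [Fintype N] [DecidableEq N]

/-- W is the family of winning coalitions of a simple game on the finite voter set N: the empty
coalition loses, the grand coalition wins, and supersets of winning coalitions win. -/
def IsSimple (W : Finset N → Prop) : Prop :=
  ¬ W ∅ ∧ W univ ∧ ∀ S T : Finset N, S ⊆ T → W S → W T

/-- The game is weighted: there are nonnegative real weights and a quota. -/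
def Weighted (W : Finset N → Prop) : Prop :=
  ∃ (w : N → ℝ) (q : ℝ), (∀ v, 0 ≤ w v) ∧ ∀ S : Finset N, W S ↔ q ≤ ∑ v ∈ S, w v

/-- Voter a is at least as desirable as voter b. -/
def AtLeast (W : Finset N → Prop) (a b : N) : Prop :=
  ∀ S : Finset N, a ∉ S → b ∉ S → W (insert b S) → W (insert a S)

/-- The game is complete: the desirability relation is total. -/
def IsComplete (W : Finset N → Prop) : Prop :=
  ∀ a b : N, AtLeast W a b ∨ AtLeast W b a

/-- The game has exactly t types of voters: there are t classes of equally desirable voters. -/
def HasTypes (W : Finset N → Prop) (t : ℕ) : Prop :=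
  ∃ τ : N → Fin t, Function.Surjective τ ∧ ∀ a b, τ a = τ b ↔ (AtLeast W a b ∧ AtLeast W b a)

/-- The game is m-trade robust: for all j with 1 ≤ j ≤ m, winning coalitions X 1, ..., X j and
coalitions Y 1, ..., Y j such that every voter belongs to as many of the X i as of the Y i,
at least one Y i is winning. -/
def TradeRobust (W : Finset N → Prop) (m : ℕ) : Prop :=
  ∀ j : ℕ, 1 ≤ j → j ≤ m → ∀ X Y : Fin j → Finset N, (∀ i, W (X i)) →
    (∀ v : N, (univ.filter (fun i => v ∈ X i)).card = (univ.filter (fun i => v ∈ Y i)).card) →
    ∃ i, W (Y i)

end Pool.Agent.R6.Trade
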