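import Pool.Agent.R6.Trade.FourGame

/-!
Adding one more type of voters: a passer or a veto voter.
-/

namespace Pool.Agent.R6.Trade

open Finset

variable {N : Type} [Fintype N] [DecidableEq N]

omit [Fintype N] in
lemma eraseNone_insert_some (a : N) (S : Finset (Option N)) :
    eraseNone (insert (some a) S) = insert a (eraseNone S) := by
  ext x; simp

omit [Fintype N] in
lemma eraseNone_insert_none (S : Finset (Option N)) :
    eraseNone (insert none S) = eraseNone S := by
  ext x; simp

/-- adding a passer -/
def passer (W : Finset N → Prop) (S : Finset (Option N)) : Prop := none ∈ S ∨ W (eraseNone S)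

/-- adding a veto voter -/
def veto (W : Finset N → Prop) (S : Finset (Option N)) : Prop := none ∈ S ∧ W (eraseNone S)

lemma passer_simple {W : Finset N → Prop} (h : IsSimple W) : IsSimple (passer W) := by
  obtain ⟨h0, -, hm⟩ := h
  refine ⟨?_, Or.inl (mem_univ _), ?_⟩
  · rintro (h | h)
    · exact notMem_empty _ h
    · rw [eraseNone_empty] at h; exact h0 h
  · rintro S T hST (h | h)
    · exact Or.inl (hST h)
    · exact Or.inr (hm _ _ (eraseNone.monotone hST) h)

lemma veto_simple {W : Finset N → Prop} (h : IsSimple W) : IsSimple (veto W) := by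
  obtain ⟨h0, h1, hm⟩ := h
  refine ⟨fun h => notMem_empty _ h.1, ⟨mem_univ _, ?_⟩, ?_⟩
  · have : eraseNone (univ : Finset (Option N)) = univ := by ext x; simp
    rw [this]; exact h1
  · rintro S T hST ⟨h, h'⟩
    exact ⟨hST h, hm _ _ (eraseNone.monotone hST) h'⟩

omit [Fintype N] in
lemma passer_atLeast {W : Finset N → Prop} (a b : N) :
    AtLeast (passer W) (some a) (some b) ↔ AtLeast W a b := by
  constructor
  · intro h S ha hb hW
    have h1 := h (S.map Function.Embedding.some) (by simpa using ha) (by simpa using hb)
      (Or.inr (by rw [eraseNone_insert_some, eraseNone_map_some]; exact hW))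
    rcases h1 with h1 | h1
    · simp at h1
    · rwa [eraseNone_insert_some, eraseNone_map_some] at h1
  · intro h S ha hb hW
    rcases hW with hW | hW
    · left
      simp only [mem_insert, reduceCtorEq, false_or] at hW ⊢
      exact hW
    · right
      rw [eraseNone_insert_some] at hW ⊢
      exact h _ (by simpa using ha) (by simpa using hb) hW

omit [Fintype N] in
lemma veto_atLeast {W : Finset N → Prop} (a b : N) :
    AtLeast (veto W) (some a) (some b) ↔ AtLeast W a b := by
  constructor
  · intro h S ha hb hW
    have h1 := h (insert none (S.map Function.Embedding.some)) (by simpa using ha)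
      (by simpa using hb) ⟨by simp, by
        rw [eraseNone_insert_some, eraseNone_insert_none, eraseNone_map_some]; exact hW⟩
    have h2 := h1.2
    rwa [eraseNone_insert_some, eraseNone_insert_none, eraseNone_map_some] at h2
  · intro h S ha hb hW
    obtain ⟨h1, h2⟩ := hW
    rw [eraseNone_insert_some] at h2
    refine ⟨?_, ?_⟩
    · simp only [mem_insert, reduceCtorEq, false_or] at h1 ⊢
      exact h1
    · rw [eraseNone_insert_some]
      exact h _ (by simpa using ha) (by simpa using hb) h2

omit [Fintype N] in
lemma passer_top {W : Finset N → Prop} (x : Option N) : AtLeast (passer W) none x := by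
  intro S _ _ _
  exact Or.inl (mem_insert_self _ _)

omit [Fintype N] in
lemma veto_top {W : Finset N → Prop} (x : Option N) : AtLeast (veto W) none x := by
  intro S h0 hx hW
  rcases x with _ | a
  · exact hW
  · have := hW.1
    simp only [mem_insert, reduceCtorEq, false_or] at this
    exact absurd this h0

omit [Fintype N] in
lemma passer_strict {W : Finset N → Prop} {a : N} (ha : ¬ W {a}) :
    ¬ AtLeast (passer W) (some a) none := by
  intro h
  have h1 := h ∅ (notMem_empty _) (notMem_empty _) (Or.inl (mem_insert_self _ _))
  rcases h1 with h1 | h1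
  · simp at h1
  · rw [eraseNone_insert_some, eraseNone_empty] at h1
    exact ha h1

omit [Fintype N] in
lemma veto_strict {W : Finset N → Prop} {a : N} {S : Finset N} (haS : a ∉ S) (hS : W S) :
    ¬ AtLeast (veto W) (some a) none := by
  intro h
  have h1 := h (S.map Function.Embedding.some) (by simpa using haS) (by simp)
    ⟨mem_insert_self _ _, by rw [eraseNone_insert_none, eraseNone_map_some]; exact hS⟩
  have := h1.1
  simp at this

/-- Types of an extension by a top voter. -/
lemma ext_types {W : Finset N → Prop} {W' : Finset (Option N) → Prop} {t : ℕ}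
    (h : HasTypes W t) (h1 : ∀ a b, AtLeast W' (some a) (some b) ↔ AtLeast W a b)
    (h3 : ∀ a, ¬ AtLeast W' (some a) none) : HasTypes W' (t + 1) := by
  obtain ⟨τ, hs, hτ⟩ := h
  have hnn : AtLeast W' none none := fun S _ _ h => h
  refine ⟨fun x => x.elim (Fin.last t) (fun a => (τ a).castSucc), ?_, ?_⟩
  · intro i
    refine Fin.lastCases ?_ (fun i => ?_) i
    · exact ⟨none, rfl⟩
    · obtain ⟨a, ha⟩ := hs i
      exact ⟨some a, by simp [ha]⟩
  · intro a b
    rcases a with _ | a <;> rcases b with _ | b
    · simp [hnn]
    · simp only [Option.elim]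
      constructor
      · intro h; exact absurd h.symm (Fin.castSucc_lt_last _).ne
      · intro h; exact absurd h.2 (h3 b)
    · simp only [Option.elim]
      constructor
      · intro h; exact absurd h (Fin.castSucc_lt_last _).ne
      · intro h; exact absurd h.1 (h3 a)
    · simp only [Option.elim, h1, ← hτ]
      exact ⟨fun h => Fin.castSucc_injective _ h, fun h => by rw [h]⟩

omit [Fintype N] in
lemma ext_complete {W : Finset N → Prop} {W' : Finset (Option N) → Prop}
    (h : IsComplete W) (h1 : ∀ a b, AtLeast W' (some a) (some b) ↔ AtLeast W a b)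
    (h2 : ∀ x, AtLeast W' none x) : IsComplete W' := by
  intro a b
  rcases a with _ | a
  · exact Or.inl (h2 b)
  · rcases b with _ | b
    · exact Or.inr (h2 _)
    · rw [h1, h1]; exact h a b

lemma passer_robust {W : Finset N → Prop} {m : ℕ} (h : TradeRobust W m) :
    TradeRobust (passer W) m := by
  intro j hj1 hj2 X Y hX hXY
  by_contra hcon
  push Not at hcon
  have hYn : ∀ i, none ∉ Y i := fun i h' => hcon i (Or.inl h')
  have hXn : ∀ i, none ∉ X i := by
    intro i hi
    have h1 := hXY none
    have h2 : (univ.filter (fun i => none ∈ Y i)) = ∅ := by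
      ext i; simp [hYn i]
    rw [h2, card_empty, card_eq_zero] at h1
    have : i ∈ univ.filter (fun i => none ∈ X i) := mem_filter.2 ⟨mem_univ _, hi⟩
    rw [h1] at this
    exact notMem_empty _ this
  obtain ⟨i, hi⟩ := h j hj1 hj2 (fun i => eraseNone (X i)) (fun i => eraseNone (Y i))
    (fun i => (hX i).resolve_left (hXn i)) (fun v => by simpa using hXY (some v))
  exact hcon i (Or.inr hi)

lemma veto_robust {W : Finset N → Prop} {m : ℕ} (h : TradeRobust W m) :
    TradeRobust (veto W) m := by
  intro j hj1 hj2 X Y hX hXY
  have hYn : ∀ i, none ∈ Y i := by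
    have h1 := hXY none
    have h2 : (univ.filter (fun i => none ∈ X i)) = univ := by
      ext i; simp [(hX i).1]
    rw [h2] at h1
    have h3 := eq_univ_of_card _ h1.symm
    intro i
    have : i ∈ univ.filter (fun i => none ∈ Y i) := by rw [h3]; exact mem_univ i
    exact (mem_filter.1 this).2
  obtain ⟨i, hi⟩ := h j hj1 hj2 (fun i => eraseNone (X i)) (fun i => eraseNone (Y i))
    (fun i => (hX i).2) (fun v => by simpa using hXY (some v))
  exact ⟨i, hYn i, hi⟩

lemma passer_not_robust {W : Finset N → Prop} {m : ℕ} (h : ¬ TradeRobust W m) :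
    ¬ TradeRobust (passer W) m := by
  intro h'
  apply h
  intro j hj1 hj2 X Y hX hXY
  obtain ⟨i, hi⟩ := h' j hj1 hj2 (fun i => (X i).map Function.Embedding.some)
    (fun i => (Y i).map Function.Embedding.some)
    (fun i => Or.inr (by rw [eraseNone_map_some]; exact hX i)) (fun v => by
      rcases v with _ | v
      · simp
      · simpa using hXY v)
  rcases hi with hi | hi
  · simp at hi
  · rw [eraseNone_map_some] at hi
    exact ⟨i, hi⟩

lemma veto_not_robust {W : Finset N → Prop} {m : ℕ} (h : ¬ TradeRobust W m) :
    ¬ TradeRobust (veto W) m := by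
  intro h'
  apply h
  intro j hj1 hj2 X Y hX hXY
  obtain ⟨i, hi⟩ := h' j hj1 hj2 (fun i => insert none ((X i).map Function.Embedding.some))
    (fun i => insert none ((Y i).map Function.Embedding.some))
    (fun i => ⟨mem_insert_self _ _, by
      rw [eraseNone_insert_none, eraseNone_map_some]; exact hX i⟩) (fun v => by
      rcases v with _ | v
      · simp
      · simpa using hXY v)
  have := hi.2
  rw [eraseNone_insert_none, eraseNone_map_some] at this
  exact ⟨i, this⟩

/-- the property of being an example for t types and order k -/
def Ex (t k : ℕ) : Prop :=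
  ∃ (N : Type) (_ : Fintype N) (_ : DecidableEq N) (W : Finset N → Prop),
    IsSimple W ∧ IsComplete W ∧ HasTypes W t ∧ TradeRobust W k ∧ ¬ TradeRobust W (k + 1)

lemma Ex.succ {t k : ℕ} (h : Ex t k) : Ex (t + 1) k := by
  obtain ⟨N, hN, hD, W, hS, hC, hT, hR, hnR⟩ := h
  by_cases hp : ∀ a : N, ¬ W {a}
  · exact ⟨Option N, inferInstance, inferInstance, passer W, passer_simple hS,
      ext_complete hC passer_atLeast passer_top,
      ext_types hT passer_atLeast (fun a => passer_strict (hp a)),
      passer_robust hR, passer_not_robust hnR⟩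
  · push Not at hp
    obtain ⟨a, ha⟩ := hp
    have hm := hS.2.2
    -- no veto voter
    have hnv : ∀ b : N, W (univ.erase b) := by
      intro b
      by_cases hba : b = a
      · subst hba
        by_contra hcon
        apply hnR
        have hdict : ∀ S : Finset N, W S → b ∈ S := by
          intro S hW
          by_contra hbS
          exact hcon (hm S _ (fun x hx => mem_erase.2 ⟨fun h => hbS (h ▸ hx), mem_univ _⟩) hW)
        intro j hj1 _ X Y hX hXY
        have h1 := hXY b
        have h2 : (univ.filter (fun i => b ∈ X i)) = univ := by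
          ext i; simp [hdict _ (hX i)]
        rw [h2] at h1
        have h3 := eq_univ_of_card _ h1.symm
        have h4 : (⟨0, hj1⟩ : Fin j) ∈ univ.filter (fun i => b ∈ Y i) := by
          rw [h3]; exact mem_univ _
        exact ⟨_, hm _ _ (singleton_subset_iff.2 (mem_filter.1 h4).2) ha⟩
      · exact hm {a} _ (by
          intro x hx
          rw [mem_singleton] at hx
          subst hx
          exact mem_erase.2 ⟨fun h => hba h.symm, mem_univ _⟩) ha
    exact ⟨Option N, inferInstance, inferInstance, veto W, veto_simple hS,
      ext_complete hC veto_atLeast veto_top,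
      ext_types hT veto_atLeast (fun b => veto_strict (notMem_erase b univ) (hnv b)),
      veto_robust hR, veto_not_robust hnR⟩

lemma ex_four {t k : ℕ} (hk : 2 ≤ k) (ht : 4 ≤ t) : Ex t k := by
  induction t, ht using Nat.le_induction with
  | base =>
    obtain ⟨p, rfl⟩ : ∃ p, k = p + 1 := ⟨k - 1, by omega⟩
    have hp : 1 ≤ p := by omega
    exact ⟨Four.Vot p, inferInstance, inferInstance, Four.WG p, Four.WG_simple hp,
      Four.WG_complete hp, Four.WG_types hp, Four.WG_robust hp, Four.WG_not_robust hp⟩
  | succ t _ ih => exact ih.succ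

end Pool.Agent.R6.Trade
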