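import Pool.Agent.R6.Trade.Vec

/-!
For every p at least one: a complete simple game with four types of voters which is
(p+1)-trade robust but not (p+2)-trade robust.
-/

namespace Pool.Agent.R6.Trade.Four

open Finset Pool.Agent.R6.Trade

/-- numbers of voters of the four types -/
def nb (p : ℕ) : Fin 4 → ℕ := ![p, p + 1, p + 2, p + 2]

/-- basic weights -/
def w (p : ℕ) : Fin 4 → ℕ := ![p * p + 3 * p + 3, p * p + 3 * p + 1, p * p + p + 1, p * p + p - 1]

/-- the threshold -/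
def q (p : ℕ) : ℕ := 3 * (p * p * p) + 9 * (p * p) + 7 * p

def vA (p : ℕ) : Fin 4 → ℕ := ![p - 1, p + 1, p + 2, 0]
def vB (p : ℕ) : Fin 4 → ℕ := ![p, p + 1, 0, p + 1]
def vC (p : ℕ) : Fin 4 → ℕ := ![p, p, p + 1, 1]
def vD (p : ℕ) : Fin 4 → ℕ := ![0, p + 1, p + 1, p + 2]
def vE (p : ℕ) : Fin 4 → ℕ := ![p, 0, p + 2, p + 2]

/-- Lattice points, in kernel coordinates. -/
lemma kernel_class {p u v z : ℤ} (hp : 1 ≤ p) (h1 : 0 ≤ u) (h1' : u ≤ p)
    (h2 : -p ≤ u + v - p * z) (h2' : u + v - p * z ≤ 1)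
    (h3 : -(p + 1) ≤ u - (p + 1) * v + z) (h3' : u - (p + 1) * v + z ≤ 1)
    (h4 : -(p + 1) ≤ u - p * v - (p + 1) * z) (h4' : u - p * v - (p + 1) * z ≤ 1) :
    (u = 0 ∧ v = 0 ∧ z = 0) ∨ (u = 1 ∧ v = 0 ∧ z = 0) ∨ (u = 0 ∧ v = 1 ∧ z = 0) ∨
    (u = 0 ∧ v = 0 ∧ z = 1) ∨ (u = p ∧ v = 1 ∧ z = 1) := by
  have key : z * (p * p + p + 1) = u * (p + 1) - p * (u + v - p * z) -
      (u - p * v - (p + 1) * z) := by ring
  have hz0 : 0 ≤ z := by
    by_contra h
    push Not at h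
    have : z ≤ -1 := by omega
    nlinarith
  have hz1 : z ≤ 1 := by
    by_contra h
    push Not at h
    have : 2 ≤ z := by omega
    nlinarith
  have hz : z = 0 ∨ z = 1 := by omega
  rcases hz with rfl | rfl
  · have hv0 : 0 ≤ v := by
      by_contra h
      push Not at h
      have : v ≤ -1 := by omega
      nlinarith
    have hv1 : v ≤ 1 := by
      by_contra h
      push Not at h
      have : 2 ≤ v := by omega
      nlinarith
    have hv : v = 0 ∨ v = 1 := by omega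
    rcases hv with rfl | rfl
    · have : u = 0 ∨ u = 1 := by
        simp at h4'; omega
      rcases this with rfl | rfl <;> simp
    · have : u = 0 := by
        simp at h2'; omega
      subst this; simp
  · have hv0 : 0 ≤ v := by
      by_contra h
      push Not at h
      have : v ≤ -1 := by omega
      nlinarith
    have hv2 : v ≤ 2 := by
      by_contra h
      push Not at h
      have : 3 ≤ v := by omega
      nlinarith
    have hv : v = 0 ∨ v = 1 ∨ v = 2 := by omega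
    rcases hv with rfl | rfl | rfl
    · have : u = 0 := by
        simp at h3'; omega
      subst this; simp
    · have : u = p := by
        have : p ≤ u := by linarith
        omega
      subst this; simp
    · exfalso
      have : p ≤ u := by linarith
      linarith

/-- The lattice points of the box with weight exactly the threshold. -/
lemma hyper_class {p : ℕ} (hp : 1 ≤ p) (x : Fin 4 → ℕ) (hx : ∀ i, x i ≤ nb p i)
    (hw : ∑ i, w p i * x i = q p) : x = vA p ∨ x = vB p ∨ x = vC p ∨ x = vD p ∨ x = vE p := by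
  have hx0 : x 0 ≤ p := hx 0
  have hx1 : x 1 ≤ p + 1 := hx 1
  have hx2 : x 2 ≤ p + 2 := hx 2
  have hx3 : x 3 ≤ p + 2 := hx 3
  obtain ⟨h, hh⟩ := Nat.even_mul_succ_self p
  have hpp : 1 ≤ p * p := Nat.mul_le_mul hp hp
  rw [Fin.sum_univ_four] at hw
  simp only [w, q, Matrix.cons_val_zero, Matrix.cons_val_one, Matrix.cons_val] at hw
  have hw' : ((p : ℤ) * p + 3 * p + 3) * x 0 + (p * p + 3 * p + 1) * x 1 + (p * p + p + 1) * x 2 +
      (p * p + p - 1) * x 3 = 3 * (p * p * p) + 9 * (p * p) + 7 * p := by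
    have h1 : ((p * p + p - 1 : ℕ) : ℤ) = (p : ℤ) * p + p - 1 := by
      rw [Nat.cast_sub (by omega)]; push_cast; ring
    have h2 := congrArg (fun n : ℕ => (n : ℤ)) hw
    push_cast [h1] at h2
    linarith
  have hh' : (p : ℤ) * p + p = 2 * h := by
    have := congrArg (fun n : ℕ => (n : ℤ)) hh
    push_cast at this
    linarith
  obtain ⟨X0, hX0⟩ : ∃ X0 : ℤ, X0 = (x 0 : ℤ) := ⟨_, rfl⟩
  obtain ⟨X1, hX1⟩ : ∃ X1 : ℤ, X1 = (x 1 : ℤ) := ⟨_, rfl⟩
  obtain ⟨X2, hX2⟩ : ∃ X2 : ℤ, X2 = (x 2 : ℤ) := ⟨_, rfl⟩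
  obtain ⟨X3, hX3⟩ : ∃ X3 : ℤ, X3 = (x 3 : ℤ) := ⟨_, rfl⟩
  obtain ⟨P, hP⟩ : ∃ P : ℤ, P = (p : ℤ) := ⟨_, rfl⟩
  rw [← hX0, ← hX1, ← hX2, ← hX3, ← hP] at hw'
  rw [← hP] at hh'
  obtain ⟨a, ha⟩ : ∃ a : ℤ, a = X1 + X0 - 2 * P := ⟨_, rfl⟩
  obtain ⟨b, hb⟩ : ∃ b : ℤ, b = X2 + X0 - 2 * P - 1 := ⟨_, rfl⟩
  obtain ⟨c, hc⟩ : ∃ c : ℤ, c = 1 - X3 + X0 - P := ⟨_, rfl⟩
  have hrel : (P * P + 3 * P + 1) * a + (P * P + P + 1) * b - (P * P + P - 1) * c = 0 := by
    rw [ha, hb, hc]; linear_combination hw'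
  obtain ⟨z, hz⟩ : ∃ z : ℤ, z = (h + P + 1) * a + (h + 1) * b - h * c := ⟨_, rfl⟩
  have hz2 : 2 * z = a + b - c := by
    rw [hz]; linear_combination hrel - (a + b - c) * hh'
  obtain ⟨v, hv⟩ : ∃ v : ℤ, v = a + P * z := ⟨_, rfl⟩
  have hv2 : -(P + 1) * v + z = b := by
    have : 2 * (-(P + 1) * v + z - b) = 0 := by
      rw [hv]; linear_combination (-(P * P + P - 1)) * hz2 - hrel
    linarith
  have hv3 : -P * v - (P + 1) * z = c := by
    have : 2 * (-P * v - (P + 1) * z - c) = 0 := by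
      rw [hv]; linear_combination (-(P * P + P + 1)) * hz2 - hrel
    linarith
  have hP1 : 1 ≤ P := by rw [hP]; exact_mod_cast hp
  have b0 : X0 ≤ P := by rw [hX0, hP]; exact_mod_cast hx0
  have b1 : X1 ≤ P + 1 := by rw [hX1, hP]; exact_mod_cast hx1
  have b2 : X2 ≤ P + 2 := by rw [hX2, hP]; exact_mod_cast hx2
  have b3 : X3 ≤ P + 2 := by rw [hX3, hP]; exact_mod_cast hx3
  have c0 : 0 ≤ X0 := by rw [hX0]; positivity
  have c1 : 0 ≤ X1 := by rw [hX1]; positivity
  have c2 : 0 ≤ X2 := by rw [hX2]; positivity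
  have c3 : 0 ≤ X3 := by rw [hX3]; positivity
  have g2 : (P - X0) + v - P * z = X1 - P := by rw [hv, ha]; ring
  have g3 : (P - X0) - (P + 1) * v + z = X2 - P - 1 := by linarith [hv2, hb]
  have g4 : (P - X0) - P * v - (P + 1) * z = 1 - X3 := by linarith [hv3, hc]
  have hcl := kernel_class (p := P) (u := P - X0) (v := v) (z := z) hP1 (by linarith) (by linarith)
    (by rw [g2]; linarith) (by rw [g2]; linarith) (by rw [g3]; linarith) (by rw [g3]; linarith)
    (by rw [g4]; linarith) (by rw [g4]; linarith)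
  have fin : ∀ y : Fin 4 → ℕ, x 0 = y 0 → x 1 = y 1 → x 2 = y 2 → x 3 = y 3 → x = y := by
    intro y h0 h1 h2 h3
    funext i
    fin_cases i
    · exact h0
    · exact h1
    · exact h2
    · exact h3
  rcases hcl with ⟨e1, e2, e3⟩ | ⟨e1, e2, e3⟩ | ⟨e1, e2, e3⟩ | ⟨e1, e2, e3⟩ | ⟨e1, e2, e3⟩
  · right; right; left
    rw [e1, e2, e3] at g2 g3 g4
    apply fin <;> simp [vC] <;> omega
  · left
    rw [e1, e2, e3] at g2 g3 g4
    apply fin <;> simp [vA] <;> omega
  · right; left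
    rw [e1, e2, e3] at g2 g3 g4
    apply fin <;> simp [vB] <;> omega
  · right; right; right; right
    rw [e1, e2, e3] at g2 g3 g4
    apply fin <;> simp [vE] <;> omega
  · right; right; right; left
    rw [e1, e2, e3] at g2 g3 g4
    apply fin <;> simp [vD] <;> omega

end Pool.Agent.R6.Trade.Four
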