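import Pool.Agent.R6.Trade.Four

/-!
The games with four types of voters.
-/

namespace Pool.Agent.R6.Trade.Four

open Finset Pool.Agent.R6.Trade

/-- the voters -/
abbrev Vot (p : ℕ) : Type := Σ i : Fin 4, Fin (nb p i)

/-- the type of a voter -/
def ty (p : ℕ) : Vot p → Fin 4 := Sigma.fst

/-- the weight of a coalition -/
def wt (p : ℕ) (S : Finset (Vot p)) : ℕ := ∑ v ∈ S, w p (ty p v)

/-- the game -/
def WG (p : ℕ) (S : Finset (Vot p)) : Prop :=
  q p < wt p S ∨ (wt p S = q p ∧ (vec (ty p) S = vC p ∨ vec (ty p) S = vD p))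

lemma wt_eq (p : ℕ) (S : Finset (Vot p)) : wt p S = ∑ i, w p i * vec (ty p) S i := by
  unfold wt
  rw [← sum_fiberwise S (ty p)]
  refine sum_congr rfl (fun i _ => ?_)
  unfold vec
  rw [card_eq_sum_ones, mul_sum]
  refine sum_congr rfl (fun v hv => ?_)
  rw [(mem_filter.1 hv).2, mul_one]

lemma nn_ty (p : ℕ) (i : Fin 4) : nn (ty p) i = nb p i := by
  change (univ.filter (fun v : Vot p => v.1 = i)).card = nb p i
  have : (univ.filter (fun v : Vot p => v.1 = i)) =
      (univ : Finset (Fin (nb p i))).map (Function.Embedding.sigmaMk i) := by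
    ext ⟨j, a⟩
    rw [mem_filter, mem_map]
    constructor
    · rintro ⟨-, h⟩
      simp only at h
      subst h
      exact ⟨a, mem_univ _, rfl⟩
    · rintro ⟨b, -, hb⟩
      exact ⟨mem_univ _, (congrArg Sigma.fst hb).symm⟩
  rw [this, card_map, card_univ, Fintype.card_fin]

lemma wpos {p : ℕ} (hp : 1 ≤ p) (i : Fin 4) : 0 < w p i := by
  have : 1 ≤ p * p := Nat.mul_le_mul hp hp
  fin_cases i <;> simp [w]
  omega

lemma w_lt {p : ℕ} (hp : 1 ≤ p) {i j : Fin 4} (h : i < j) : w p j < w p i := by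
  have h1 : 1 ≤ p * p := Nat.mul_le_mul hp hp
  fin_cases i <;> fin_cases j <;> simp [w] at h ⊢ <;> omega

lemma wt_lt_of_ssubset {p : ℕ} (hp : 1 ≤ p) {S T : Finset (Vot p)} (h : S ⊂ T) :
    wt p S < wt p T := by
  obtain ⟨hsub, hne⟩ := h
  rw [not_subset] at hne
  obtain ⟨v, hvT, hvS⟩ := hne
  exact sum_lt_sum_of_subset hsub hvT hvS (wpos hp _) (fun _ _ _ => Nat.zero_le _)

lemma WG_wt {p : ℕ} {S : Finset (Vot p)} (h : WG p S) : q p ≤ wt p S := by
  rcases h with h | h
  · exact h.le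
  · exact h.1.ge

lemma WG_simple {p : ℕ} (hp : 1 ≤ p) : IsSimple (WG p) := by
  refine ⟨?_, ?_, ?_⟩
  · intro h
    have := WG_wt h
    simp only [wt, sum_empty, q] at this
    omega
  · left
    rw [wt_eq, Fin.sum_univ_four]
    have h1 : ∀ i, vec (ty p) (univ : Finset (Vot p)) i = nb p i := fun i => nn_ty p i
    simp only [h1]
    obtain ⟨r, rfl⟩ : ∃ r, p = r + 1 := ⟨p - 1, by omega⟩
    simp only [w, q, nb, Matrix.cons_val_zero, Matrix.cons_val_one, Matrix.cons_val]
    have : (r + 1) * (r + 1) + (r + 1) - 1 = (r + 1) * (r + 1) + r := by omega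
    rw [this]
    ring_nf
    nlinarith
  · intro S T hST h
    rcases hST.eq_or_ssubset with rfl | hss
    · exact h
    · left
      exact lt_of_le_of_lt (WG_wt h) (wt_lt_of_ssubset hp hss)

lemma atLeast_of_le {p : ℕ} (hp : 1 ≤ p) {a b : Vot p} (h : ty p a ≤ ty p b) :
    AtLeast (WG p) a b := by
  intro S ha hb hW
  rcases h.eq_or_lt with h | h
  · have h1 : wt p (insert a S) = wt p (insert b S) := by
      simp only [wt, sum_insert ha, sum_insert hb, h]
    have h2 : vec (ty p) (insert a S) = vec (ty p) (insert b S) := by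
      by_cases hab : a = b
      · rw [hab]
      · have := vec_swap (ty p) (S := insert b S) (a := b) (b := a) (mem_insert_self _ _)
          (by simp [ha, hab]) h.symm
        rw [erase_insert hb] at this
        exact this
    unfold WG at hW ⊢
    rw [h1, h2]
    exact hW
  · left
    have h1 := WG_wt hW
    have h2 := w_lt hp h
    simp only [wt, sum_insert hb] at h1
    simp only [wt, sum_insert ha]
    omega

lemma WG_complete {p : ℕ} (hp : 1 ≤ p) : IsComplete (WG p) := by
  intro a b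
  rcases le_total (ty p a) (ty p b) with h | h
  · exact Or.inl (atLeast_of_le hp h)
  · exact Or.inr (atLeast_of_le hp h)

/-- A coalition with a given type vector, containing a and avoiding b. -/
lemma exists_coal {p : ℕ} (x : Fin 4 → ℕ) (hx : ∀ i, x i ≤ nb p i) (a b : Vot p)
    (hab : ty p a ≠ ty p b) (ha : 1 ≤ x (ty p a)) (hb : x (ty p b) + 1 ≤ nb p (ty p b)) :
    ∃ S : Finset (Vot p), a ∈ S ∧ b ∉ S ∧ vec (ty p) S = x := by
  classical
  have hS : ∀ i : Fin 4, ∃ A : Finset (Vot p), (univ.filter (fun v => ty p v = i ∧ v = a)) ⊆ A ∧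
      A ⊆ univ.filter (fun v => ty p v = i ∧ v ≠ b) ∧ A.card = x i := by
    intro i
    apply exists_subsuperset_card_eq
    · intro v hv
      obtain ⟨-, h1, h2⟩ := mem_filter.1 hv
      refine mem_filter.2 ⟨mem_univ _, h1, ?_⟩
      rintro rfl
      exact hab (by rw [h2])
    · by_cases hi : ty p a = i
      · have : (univ.filter (fun v => ty p v = i ∧ v = a)) = {a} := by
          ext v; simp only [mem_filter, mem_univ, true_and, mem_singleton]
          constructor
          · exact fun h => h.2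
          · rintro rfl; exact ⟨hi, rfl⟩
        rw [this, card_singleton, ← hi]; exact ha
      · have : (univ.filter (fun v => ty p v = i ∧ v = a)) = ∅ := by
          ext v; simp only [mem_filter, mem_univ, true_and, notMem_empty, iff_false, not_and]
          rintro h1 rfl; exact hi h1
        rw [this]; simp
    · have h0 : (univ.filter (fun v => ty p v = i ∧ v ≠ b)) =
          (univ.filter (fun v => ty p v = i)).erase b := by
        ext v; simp [and_comm]
      rw [h0]
      have h1 := nn_ty p i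
      unfold nn at h1
      by_cases hi : ty p b = i
      · rw [card_erase_of_mem (by simp [hi]), h1, ← hi]; omega
      · rw [erase_eq_of_notMem (by simp [hi]), h1]; exact hx i
  choose A hA1 hA2 hA3 using hS
  refine ⟨univ.filter (fun v => v ∈ A (ty p v)), ?_, ?_, ?_⟩
  · refine mem_filter.2 ⟨mem_univ _, hA1 _ ?_⟩
    simp
  · intro h
    have := hA2 _ (mem_filter.1 h).2
    simp at this
  · funext i
    unfold vec
    rw [← hA3 i]
    congr 1
    ext v
    simp only [mem_filter, mem_univ, true_and]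
    constructor
    · rintro ⟨h1, h2⟩
      rwa [h2] at h1
    · intro h
      have := mem_filter.1 (hA2 i h)
      refine ⟨?_, this.2.1⟩
      rw [this.2.1]; exact h

lemma wt_vC {p : ℕ} (hp : 1 ≤ p) : ∑ i, w p i * vC p i = q p := by
  obtain ⟨r, rfl⟩ : ∃ r, p = r + 1 := ⟨p - 1, by omega⟩
  rw [Fin.sum_univ_four]
  simp only [w, q, vC, Matrix.cons_val_zero, Matrix.cons_val_one, Matrix.cons_val]
  have : (r + 1) * (r + 1) + (r + 1) - 1 = (r + 1) * (r + 1) + r := by omega
  rw [this]
  ring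

lemma wt_vD {p : ℕ} (hp : 1 ≤ p) : ∑ i, w p i * vD p i = q p := by
  obtain ⟨r, rfl⟩ : ∃ r, p = r + 1 := ⟨p - 1, by omega⟩
  rw [Fin.sum_univ_four]
  simp only [w, q, vD, Matrix.cons_val_zero, Matrix.cons_val_one, Matrix.cons_val]
  have : (r + 1) * (r + 1) + (r + 1) - 1 = (r + 1) * (r + 1) + r := by omega
  rw [this]
  ring

lemma wt_vA {p : ℕ} (hp : 1 ≤ p) : ∑ i, w p i * vA p i = q p := by
  obtain ⟨r, rfl⟩ : ∃ r, p = r + 1 := ⟨p - 1, by omega⟩
  rw [Fin.sum_univ_four]
  simp only [w, q, vA, Matrix.cons_val_zero, Matrix.cons_val_one, Matrix.cons_val]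
  simp only [Nat.add_sub_cancel]
  ring

lemma wt_vB {p : ℕ} (hp : 1 ≤ p) : ∑ i, w p i * vB p i = q p := by
  obtain ⟨r, rfl⟩ : ∃ r, p = r + 1 := ⟨p - 1, by omega⟩
  rw [Fin.sum_univ_four]
  simp only [w, q, vB, Matrix.cons_val_zero, Matrix.cons_val_one, Matrix.cons_val]
  have : (r + 1) * (r + 1) + (r + 1) - 1 = (r + 1) * (r + 1) + r := by omega
  rw [this]
  ring

lemma wt_vE {p : ℕ} (hp : 1 ≤ p) : ∑ i, w p i * vE p i = q p := by
  obtain ⟨r, rfl⟩ : ∃ r, p = r + 1 := ⟨p - 1, by omega⟩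
  rw [Fin.sum_univ_four]
  simp only [w, q, vE, Matrix.cons_val_zero, Matrix.cons_val_one, Matrix.cons_val]
  have : (r + 1) * (r + 1) + (r + 1) - 1 = (r + 1) * (r + 1) + r := by omega
  rw [this]
  ring

lemma not_atLeast {p : ℕ} (hp : 1 ≤ p) {a b : Vot p} (h : ty p a < ty p b) :
    ¬ AtLeast (WG p) b a := by
  intro hba
  obtain ⟨S, haS, hbS, hv⟩ := exists_coal (p := p) (vC p) (by
    intro i; fin_cases i <;> simp [vC, nb]) a b h.ne (by
    generalize ty p a = i
    fin_cases i <;> simp [vC] <;> omega) (by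
    have : ty p b ≠ 0 := by
      intro h0; rw [h0] at h; exact absurd h (Fin.not_lt_zero _)
    revert this
    generalize ty p b = i
    intro hi
    fin_cases i <;> simp [vC, nb] at hi ⊢)
  have hW : WG p S := by
    right
    refine ⟨?_, Or.inl hv⟩
    rw [wt_eq, hv, wt_vC hp]
  have hW' := hba (S.erase a) (by simp [hbS]) (by simp) (by rwa [insert_erase haS])
  have h1 := WG_wt hW'
  have hb' : b ∉ S.erase a := by simp [hbS]
  have h2 : wt p S = q p := by rw [wt_eq, hv, wt_vC hp]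
  have h3 : wt p S = w p (ty p a) + wt p (S.erase a) := by
    exact (add_sum_erase S (fun v => w p (ty p v)) haS).symm
  have h4 : wt p (insert b (S.erase a)) = w p (ty p b) + wt p (S.erase a) := by
    unfold wt
    rw [sum_insert hb']
  have h5 := w_lt hp h
  omega

lemma WG_types {p : ℕ} (hp : 1 ≤ p) : HasTypes (WG p) 4 := by
  refine ⟨ty p, ?_, ?_⟩
  · intro i
    have : 0 < nb p i := by fin_cases i <;> simp [nb]; omega
    exact ⟨⟨i, ⟨0, this⟩⟩, rfl⟩
  · intro a b
    constructor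
    · intro h
      exact ⟨atLeast_of_le hp h.le, atLeast_of_le hp h.ge⟩
    · rintro ⟨h1, h2⟩
      by_contra hne
      rcases lt_or_gt_of_ne hne with h | h
      · exact not_atLeast hp h h2
      · exact not_atLeast hp h h1

lemma WG_robust {p : ℕ} (hp : 1 ≤ p) : TradeRobust (WG p) (p + 1) := by
  intro j hj1 hj2 X Y hX hXY
  by_contra hcon
  push Not at hcon
  have hsv : ∀ i, ∑ k, vec (ty p) (X k) i = ∑ k, vec (ty p) (Y k) i := by
    intro i
    rw [sum_vec, sum_vec]
    exact sum_congr rfl (fun v _ => hXY v)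
  have hsw : ∑ k, wt p (X k) = ∑ k, wt p (Y k) := by
    simp only [wt_eq]
    rw [sum_comm, sum_comm (s := (univ : Finset (Fin j)))]
    refine sum_congr rfl (fun i _ => ?_)
    rw [← mul_sum, ← mul_sum, hsv]
  have hXge : ∀ k, q p ≤ wt p (X k) := fun k => WG_wt (hX k)
  have hYle : ∀ k, wt p (Y k) ≤ q p := by
    intro k
    by_contra h
    push Not at h
    exact hcon k (Or.inl h)
  have hXsum : ∑ k : Fin j, q p ≤ ∑ k, wt p (X k) := sum_le_sum (fun k _ => hXge k)
  have hYsum : ∑ k, wt p (Y k) ≤ ∑ k : Fin j, q p := sum_le_sum (fun k _ => hYle k)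
  have hXeq : ∀ k, wt p (X k) = q p := by
    intro k
    have h1 : ∑ k : Fin j, q p = ∑ k, wt p (X k) := le_antisymm hXsum (hsw ▸ hYsum)
    exact ((sum_eq_sum_iff_of_le (fun k _ => hXge k)).1 h1 k (mem_univ k)).symm
  have hYeq : ∀ k, wt p (Y k) = q p := by
    intro k
    have h1 : ∑ k, wt p (Y k) = ∑ k : Fin j, q p := le_antisymm hYsum (hsw ▸ hXsum)
    exact (sum_eq_sum_iff_of_le (fun k _ => hYle k)).1 h1 k (mem_univ k)
  have hX2 : ∀ k, vec (ty p) (X k) 2 = p + 1 := by
    intro k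
    rcases hX k with h | ⟨-, h | h⟩
    · rw [hXeq k] at h; exact absurd h (lt_irrefl _)
    · rw [h]; rfl
    · rw [h]; rfl
  have hY2 : ∀ k, p + 2 ∣ vec (ty p) (Y k) 2 := by
    intro k
    have hc := hyper_class hp (vec (ty p) (Y k)) (fun i => (vec_le _ _ _).trans (nn_ty p i).le)
      (by rw [← wt_eq, hYeq k])
    have hno : ¬ (vec (ty p) (Y k) = vC p ∨ vec (ty p) (Y k) = vD p) := fun h =>
      hcon k (Or.inr ⟨hYeq k, h⟩)
    rcases hc with h | h | h | h | h
    · rw [h]; exact dvd_refl _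
    · rw [h]; exact dvd_zero _
    · exact absurd (Or.inl h) hno
    · exact absurd (Or.inr h) hno
    · rw [h]; exact dvd_refl _
  have h1 := hsv 2
  simp only [hX2, sum_const, card_univ, Fintype.card_fin, smul_eq_mul] at h1
  have h2 : p + 2 ∣ j * (p + 1) := by rw [h1]; exact dvd_sum (fun k _ => hY2 k)
  have h3 : Nat.Coprime (p + 2) (p + 1) := by
    rw [show p + 2 = 1 + (p + 1) by ring]
    exact Nat.coprime_add_self_left.2 (Nat.coprime_one_left _)
  have h4 : p + 2 ∣ j := (Nat.Coprime.dvd_mul_right h3).1 h2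
  have := Nat.le_of_dvd (by omega) h4
  omega

lemma WG_of_vec {p : ℕ} (hp : 1 ≤ p) {S : Finset (Vot p)}
    (h : vec (ty p) S = vC p ∨ vec (ty p) S = vD p) : WG p S := by
  right
  refine ⟨?_, h⟩
  rw [wt_eq]
  rcases h with h | h
  · rw [h, wt_vC hp]
  · rw [h, wt_vD hp]

lemma WG_not_robust {p : ℕ} (hp : 1 ≤ p) : ¬ TradeRobust (WG p) (p + 2) := by
  intro hR
  obtain ⟨g, hg⟩ := realize (ty p)
  let x : Fin (p + 2) → Fin 4 → ℕ := Fin.cons (vD p) (fun _ => vC p)
  let y : Fin (p + 2) → Fin 4 → ℕ := Fin.cons (vE p) (Fin.cons (vB p) (fun _ => vA p))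
  have hCn : ∀ i, vC p i ≤ nb p i := by intro i; fin_cases i <;> simp [vC, nb]
  have hDn : ∀ i, vD p i ≤ nb p i := by intro i; fin_cases i <;> simp [vD, nb]
  have hAn : ∀ i, vA p i ≤ nb p i := by intro i; fin_cases i <;> simp [vA, nb]
  have hBn : ∀ i, vB p i ≤ nb p i := by intro i; fin_cases i <;> simp [vB, nb]
  have hEn : ∀ i, vE p i ≤ nb p i := by intro i; fin_cases i <;> simp [vE, nb]
  have hxn : ∀ k i, x k i ≤ nn (ty p) i := by
    intro k i
    rw [nn_ty]
    refine Fin.cases ?_ (fun k => ?_) k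
    · exact hDn i
    · exact hCn i
  have hyn : ∀ k i, y k i ≤ nn (ty p) i := by
    intro k i
    rw [nn_ty]
    refine Fin.cases ?_ (fun k => ?_) k
    · exact hEn i
    · refine Fin.cases ?_ (fun k => ?_) k
      · exact hBn i
      · exact hAn i
  obtain ⟨X, hX1, hX2⟩ := hg _ x hxn
  obtain ⟨Y, hY1, hY2⟩ := hg _ y hyn
  have hsum : ∀ i, ∑ k, x k i = ∑ k, y k i := by
    intro i
    have hx : ∑ k, x k i = vD p i + (p + 1) * vC p i := by
      rw [Fin.sum_univ_succ]; simp [x]
    have hy : ∑ k, y k i = vE p i + (vB p i + p * vA p i) := by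
      rw [Fin.sum_univ_succ, Fin.sum_univ_succ]; simp [y]
    rw [hx, hy]
    clear hx hy hX1 hX2 hY1 hY2 hxn hyn x y hg
    obtain ⟨r, rfl⟩ : ∃ r, p = r + 1 := ⟨p - 1, by omega⟩
    fin_cases i <;> simp [vA, vB, vC, vD, vE] <;> ring
  obtain ⟨k, hk⟩ := hR (p + 2) (by omega) le_rfl X Y (fun k => by
    apply WG_of_vec hp
    rw [hX1]
    refine Fin.cases ?_ (fun k => ?_) k
    · right; rfl
    · left; rfl) (fun v => by rw [hX2, hY2, hsum])
  -- Y k loses
  have hcases : y k = vA p ∨ y k = vB p ∨ y k = vE p := by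
    refine Fin.cases ?_ (fun k => ?_) k
    · right; right; rfl
    · refine Fin.cases ?_ (fun k => ?_) k
      · right; left; rfl
      · left; rfl
  have hwy : wt p (Y k) = q p := by
    rw [wt_eq, hY1]
    rcases hcases with h | h | h
    · rw [h, wt_vA hp]
    · rw [h, wt_vB hp]
    · rw [h, wt_vE hp]
  have h2 : vec (ty p) (Y k) 2 = p + 1 := by
    rcases hk with h | ⟨-, h | h⟩
    · rw [hwy] at h; exact absurd h (lt_irrefl _)
    · rw [h]; rfl
    · rw [h]; rfl
  rw [hY1] at h2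
  rcases hcases with h | h | h
  · rw [h] at h2
    have : vA p 2 = p + 2 := rfl
    omega
  · rw [h] at h2
    have : vB p 2 = 0 := rfl
    omega
  · rw [h] at h2
    have : vE p 2 = p + 2 := rfl
    omega

end Pool.Agent.R6.Trade.Four
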