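import Pool.Agent.R6.Trade.Main
import Pool.Agent.R6.Trade.Defs
import Pool.Agent.Y199.NN.Farkas

/-!
Simple games, trade robustness, the theorem of Taylor and Zwicker, and type vectors.
-/

namespace Pool.Agent.R6.Trade

open Finset

variable {N : Type} [Fintype N] [DecidableEq N]

/-- A weighted game is trade robust of every order. -/
theorem Weighted.tradeRobust {W : Finset N → Prop} (h : Weighted W) (m : ℕ) : TradeRobust W m := by
  obtain ⟨w, q, -, hw⟩ := h
  intro j hj _ X Y hX hXY
  by_contra hcon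
  push Not at hcon
  have key : ∀ Z : Fin j → Finset N, ∑ i, ∑ v ∈ Z i, w v =
      ∑ v, ((univ.filter (fun i => v ∈ Z i)).card : ℝ) * w v := by
    intro Z
    have h1 : ∀ i, ∑ v ∈ Z i, w v = ∑ v, if v ∈ Z i then w v else 0 := by
      intro i; rw [sum_ite_mem, univ_inter]
    rw [sum_congr rfl (fun i _ => h1 i), sum_comm]
    refine sum_congr rfl (fun v _ => ?_)
    rw [← sum_filter, sum_const, nsmul_eq_mul]
  have h1 : ∑ i, ∑ v ∈ X i, w v = ∑ i, ∑ v ∈ Y i, w v := by
    rw [key, key]
    exact sum_congr rfl (fun v _ => by rw [hXY v])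
  have h2 : ∑ i, ∑ v ∈ Y i, w v < ∑ i, ∑ v ∈ X i, w v := by
    haveI : Nonempty (Fin j) := ⟨⟨0, hj⟩⟩
    apply sum_lt_sum_of_nonempty univ_nonempty
    intro i _
    have a := (hw (X i)).1 (hX i)
    have b : ¬ q ≤ ∑ v ∈ Y i, w v := fun h => hcon i ((hw (Y i)).2 h)
    push Not at b
    linarith
  linarith

/-- Taylor and Zwicker: a simple game which is not weighted has a trade. -/
theorem exists_trade {W : Finset N → Prop} (hS : IsSimple W) (hnw : ¬ Weighted W) :
    ∃ (J : ℕ) (X Y : Fin J → Finset N), 1 ≤ J ∧ (∀ i, W (X i)) ∧ (∀ i, ¬ W (Y i)) ∧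
      ∀ v : N, (univ.filter (fun i => v ∈ X i)).card = (univ.filter (fun i => v ∈ Y i)).card := by
  classical
  obtain ⟨-, hW1, hmono⟩ := hS
  let e := Fintype.equivFin N
  let B := {ST : Finset N × Finset N // W ST.1 ∧ ¬ W ST.2}
  let v : B → Fin (Fintype.card N) → ℤ := fun b i =>
    (if e.symm i ∈ b.1.2 then 1 else 0) - (if e.symm i ∈ b.1.1 then 1 else 0)
  rcases Pool.Agent.Y199.NN.ville v with ⟨l, ⟨b0, hb0⟩, hl⟩ | ⟨w, hw⟩
  · obtain ⟨J, g, hJ, hg⟩ := Pool.Agent.Y199.NN.exists_mult l
    have hJ1 : 1 ≤ J := by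
      rw [hJ]
      have : l b0 ≤ ∑ b, l b := single_le_sum (fun _ _ => Nat.zero_le _) (mem_univ b0)
      omega
    -- counts
    have hcnt : ∀ a : N, (univ.filter (fun x => a ∈ (g x).1.1)).card ≤
        (univ.filter (fun x => a ∈ (g x).1.2)).card := by
      intro a
      have h1 := hl (e a)
      have h2 := hg (fun b => v b (e a))
      rw [← h2] at h1
      simp only [v, Equiv.symm_apply_apply, sum_sub_distrib, sum_boole] at h1
      have : ((univ.filter (fun x => a ∈ (g x).1.1)).card : ℤ) ≤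
        (univ.filter (fun x => a ∈ (g x).1.2)).card := by linarith
      exact_mod_cast this
    -- enlarge
    have hK : ∀ a : N, ∃ K : Finset (Fin J), univ.filter (fun x => a ∈ (g x).1.1) ⊆ K ∧
        K.card = (univ.filter (fun x => a ∈ (g x).1.2)).card := by
      intro a
      obtain ⟨K, h1, -, h2⟩ := exists_subsuperset_card_eq
        (subset_univ (univ.filter (fun x => a ∈ (g x).1.1))) (hcnt a)
        (card_le_univ _ |>.trans (by simp))
      exact ⟨K, h1, h2⟩
    choose K hK1 hK2 using hK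
    refine ⟨J, fun x => univ.filter (fun a => x ∈ K a), fun x => (g x).1.2, hJ1, ?_, ?_, ?_⟩
    · intro x
      apply hmono (g x).1.1 _ _ (g x).2.1
      intro a ha
      rw [mem_filter]
      exact ⟨mem_univ _, hK1 a (mem_filter.2 ⟨mem_univ _, ha⟩)⟩
    · intro x
      exact (g x).2.2
    · intro a
      rw [← hK2 a]
      congr 1
      ext x
      simp
  · exfalso
    apply hnw
    -- weights
    let u : N → ℝ := fun a => (w (e a) : ℝ)
    have hpair : ∀ S T : Finset N, W S → ¬ W T → ∑ a ∈ T, u a < ∑ a ∈ S, u a := by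
      intro S T hS hT
      have h1 := hw ⟨(S, T), hS, hT⟩
      simp only [v] at h1
      rw [← e.sum_comp] at h1
      simp only [Equiv.symm_apply_apply] at h1
      have h2 : ∑ a, ((w (e a) : ℤ)) * ((if a ∈ T then 1 else 0) - (if a ∈ S then 1 else 0)) =
          ∑ a ∈ T, (w (e a) : ℤ) - ∑ a ∈ S, (w (e a) : ℤ) := by
        have : ∀ a, ((w (e a) : ℤ)) * ((if a ∈ T then 1 else 0) - (if a ∈ S then 1 else 0)) =
            (if a ∈ T then (w (e a) : ℤ) else 0) - (if a ∈ S then (w (e a) : ℤ) else 0) := by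
          intro a; split_ifs <;> simp
        rw [sum_congr rfl (fun a _ => this a), sum_sub_distrib, sum_ite_mem, sum_ite_mem]
        simp
      rw [h2] at h1
      have h3 : ∑ a ∈ T, (w (e a) : ℤ) < ∑ a ∈ S, (w (e a) : ℤ) := by linarith
      simp only [u]
      exact_mod_cast h3
    have hne : (univ.filter (fun S : Finset N => W S)).Nonempty := ⟨univ, by simp [hW1]⟩
    obtain ⟨S0, hS0, hmin⟩ := exists_min_image _ (fun S => ∑ a ∈ S, u a) hne
    refine ⟨u, ∑ a ∈ S0, u a, fun a => by simp [u], fun S => ?_⟩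
    constructor
    · intro h
      exact hmin S (mem_filter.2 ⟨mem_univ _, h⟩)
    · intro h
      by_contra hnS
      have := hpair S0 S (mem_filter.1 hS0).2 hnS
      linarith

end Pool.Agent.R6.Trade
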