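import Mathlib

/-!
The local lemma: four points of a three-dimensional box with fractional weights of total two.
-/

namespace Pool.Agent.R6.Trade

open Finset

/-- One coordinate, star at z : a violation at z for the complementary weights excludes a
violation at k for the weights. -/
lemma coord_G1 {tz tk tc td az ak ac ad n : ℝ}
    (hz0 : 0 < tz) (hk0 : 0 < tk) (hc0 : 0 < tc) (hd0 : 0 < td)
    (hz1 : tz < 1) (hk1 : tk < 1) (hc1 : tc < 1) (hd1 : td < 1)
    (hs : tz + tk + tc + td = 2)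
    (h1 : tz + tk ≤ 1) (h2 : tz + tc ≤ 1) (h3 : tz + td ≤ 1)
    (az0 : 0 ≤ az) (ak0 : 0 ≤ ak) (ac0 : 0 ≤ ac) (ad0 : 0 ≤ ad)
    (az1 : az ≤ n) (ak1 : ak ≤ n) (ac1 : ac ≤ n) (ad1 : ad ≤ n)
    (hB : (1 - tz) * az + (1 - tk) * ak + (1 - tc) * ac + (1 - td) * ad < az ∨
      az < (1 - tz) * az + (1 - tk) * ak + (1 - tc) * ac + (1 - td) * ad - n)
    (hA : tz * az + tk * ak + tc * ac + td * ad < ak ∨
      ak < tz * az + tk * ak + tc * ac + td * ad - n) : False := by
  have key1 : ∀ {az ak ac ad : ℝ}, 0 ≤ az → 0 ≤ ak → 0 ≤ ac → 0 ≤ ad → 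
      (1 - tz) * az + (1 - tk) * ak + (1 - tc) * ac + (1 - td) * ad < az →
      tz * az + tk * ak + tc * ac + td * ad < ak → False := by
    intro az ak ac ad az0 ak0 ac0 ad0 hB hA
    have e1 := mul_nonneg (by linarith : (0:ℝ) ≤ 1 - tc) ac0
    have e2 := mul_nonneg (by linarith : (0:ℝ) ≤ 1 - td) ad0
    have e3 := mul_nonneg hc0.le ac0
    have e4 := mul_nonneg hd0.le ad0
    nlinarith
  -- az small in the B sense, ak large in the A sense
  have key2 : ∀ {az ak ac ad : ℝ}, 0 ≤ az → 0 ≤ ak → 0 ≤ ac → 0 ≤ ad → 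
      az ≤ n → ak ≤ n → ac ≤ n → ad ≤ n →
      az < (1 - tz) * az + (1 - tk) * ak + (1 - tc) * ac + (1 - td) * ad - n →
      tz * az + tk * ak + tc * ac + td * ad < ak → False := by
    intro az ak ac ad az0 ak0 ac0 ad0 az1 ak1 ac1 ad1 hB hA
    -- b = n - a ; tz * bz > sum (1 - t_l) b_l
    have hB' : (1 - tk) * (n - ak) + (1 - tc) * (n - ac) + (1 - td) * (n - ad) < tz * (n - az) := by
      nlinarith
    have f1 : tz * (n - ak) ≤ (1 - tk) * (n - ak) :=
      mul_le_mul_of_nonneg_right (by linarith) (by linarith)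
    have f2 : tz * (n - ac) ≤ (1 - tc) * (n - ac) :=
      mul_le_mul_of_nonneg_right (by linarith) (by linarith)
    have f3 : tz * (n - ad) ≤ (1 - td) * (n - ad) :=
      mul_le_mul_of_nonneg_right (by linarith) (by linarith)
    have f4 : tz * ((n - ak) + (n - ac) + (n - ad)) < tz * (n - az) := by nlinarith
    have f5 : (n - ak) + (n - ac) + (n - ad) < n - az := lt_of_mul_lt_mul_left f4 hz0.le
    have f6 : n ≤ ac + ad := by linarith
    have g1 : (1 - tk) * ac ≤ tc * ac := mul_le_mul_of_nonneg_right (by linarith) ac0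
    have g2 : (1 - tk) * ad ≤ td * ad := mul_le_mul_of_nonneg_right (by linarith) ad0
    have g3 := mul_nonneg hz0.le az0
    have g4 : (1 - tk) * (ac + ad) < (1 - tk) * ak := by nlinarith
    have g5 : ac + ad < ak := lt_of_mul_lt_mul_left g4 (by linarith)
    linarith
  rcases hB with hB | hB <;> rcases hA with hA | hA
  · exact key1 az0 ak0 ac0 ad0 hB hA
  · refine key2 (az := n - az) (ak := n - ak) (ac := n - ac) (ad := n - ad) (by linarith)
      (by linarith) (by linarith) (by linarith) (by linarith) (by linarith) (by linarith)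
      (by linarith) ?_ ?_
    · nlinarith
    · nlinarith
  · exact key2 az0 ak0 ac0 ad0 az1 ak1 ac1 ad1 hB hA
  · refine key1 (az := n - az) (ak := n - ak) (ac := n - ac) (ad := n - ad) (by linarith)
      (by linarith) (by linarith) (by linarith) ?_ ?_
    · nlinarith
    · nlinarith

/-- One coordinate, star at z : no two violations outside z. -/
lemma coord_G2 {tz tk tc td az ak ac ad n : ℝ}
    (hz0 : 0 < tz) (hk0 : 0 < tk) (hc0 : 0 < tc) (hd0 : 0 < td)
    (hs : tz + tk + tc + td = 2) (h3 : tz + td ≤ 1)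
    (az0 : 0 ≤ az) (ak0 : 0 ≤ ak) (ac0 : 0 ≤ ac) (ad0 : 0 ≤ ad)
    (az1 : az ≤ n) (ak1 : ak ≤ n) (ac1 : ac ≤ n) (ad1 : ad ≤ n)
    (hA : tz * az + tk * ak + tc * ac + td * ad < ak ∨
      ak < tz * az + tk * ak + tc * ac + td * ad - n)
    (hA' : tz * az + tk * ak + tc * ac + td * ad < ac ∨
      ac < tz * az + tk * ak + tc * ac + td * ad - n) : False := by
  have key1 : ∀ {az ak ac ad : ℝ}, 0 ≤ az → 0 ≤ ak → 0 ≤ ac → 0 ≤ ad → 
      tz * az + tk * ak + tc * ac + td * ad < ak →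
      tz * az + tk * ak + tc * ac + td * ad < ac → False := by
    intro az ak ac ad az0 ak0 ac0 ad0 hA hA'
    set M := tz * az + tk * ak + tc * ac + td * ad with hM
    have e1 := mul_nonneg hz0.le az0
    have e2 := mul_nonneg hd0.le ad0
    have e3 : tk * M ≤ tk * ak := mul_le_mul_of_nonneg_left hA.le hk0.le
    have e4 : tc * M < tc * ac := mul_lt_mul_of_pos_left hA' hc0
    have e5 := mul_nonneg hk0.le ak0
    have e6 := mul_nonneg hc0.le ac0
    have hM0 : 0 ≤ M := by rw [hM]; linarith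
    have e7 : 1 * M ≤ (tk + tc) * M := mul_le_mul_of_nonneg_right (by linarith) hM0
    nlinarith
  rcases hA with hA | hA <;> rcases hA' with hA' | hA'
  · exact key1 az0 ak0 ac0 ad0 hA hA'
  · linarith
  · linarith
  · refine key1 (az := n - az) (ak := n - ak) (ac := n - ac) (ad := n - ad) (by linarith)
      (by linarith) (by linarith) (by linarith) ?_ ?_
    · nlinarith
    · nlinarith

section
variable {E : Type*} [DecidableEq E]

lemma four_split {F : Finset E} (hF : F.card = 4) {z k : E} (hz : z ∈ F) (hk : k ∈ F)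
    (hzk : k ≠ z) : ∃ c d : E, c ≠ z ∧ c ≠ k ∧ d ≠ z ∧ d ≠ k ∧ c ≠ d ∧ c ∈ F ∧ d ∈ F ∧
      ∀ g : E → ℝ, ∑ e ∈ F, g e = g z + g k + g c + g d := by
  have hk' : k ∈ F.erase z := mem_erase.2 ⟨hzk, hk⟩
  have hcard : ((F.erase z).erase k).card = 2 := by
    rw [card_erase_of_mem hk', card_erase_of_mem hz, hF]
  obtain ⟨c, d, hcd, h2⟩ := card_eq_two.1 hcard
  have hc : c ∈ (F.erase z).erase k := by rw [h2]; simp
  have hd : d ∈ (F.erase z).erase k := by rw [h2]; simp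
  have hc' := mem_erase.1 hc
  have hd' := mem_erase.1 hd
  have hc'' := mem_erase.1 hc'.2
  have hd'' := mem_erase.1 hd'.2
  refine ⟨c, d, hc''.1, hc'.1, hd''.1, hd'.1, hcd, hc''.2, hd''.2, fun g => ?_⟩
  rw [← add_sum_erase F g hz, ← add_sum_erase (F.erase z) g hk', h2, sum_pair hcd]
  ring

lemma four_split3 {F : Finset E} (hF : F.card = 4) {z k c : E} (hz : z ∈ F) (hk : k ∈ F)
    (hc : c ∈ F) (hzk : k ≠ z) (hcz : c ≠ z) (hck : c ≠ k) : ∃ d : E, d ≠ z ∧ d ∈ F ∧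
      ∀ g : E → ℝ, ∑ e ∈ F, g e = g z + g k + g c + g d := by
  obtain ⟨c', d', h1, h2, h3, h4, h5, h6, h7, h8⟩ := four_split hF hz hk hzk
  have : c = c' ∨ c = d' := by
    by_contra hne
    push Not at hne
    have hsub : ({z, k, c', d', c} : Finset E) ⊆ F := by
      intro x hx
      simp only [mem_insert, mem_singleton] at hx
      rcases hx with rfl | rfl | rfl | rfl | rfl <;> assumption
    have hc5 : ({z, k, c', d', c} : Finset E).card = 5 := by
      rw [card_insert_of_notMem, card_insert_of_notMem, card_insert_of_notMem,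
        card_insert_of_notMem, card_singleton]
      · simp [hne.2.symm]
      · simp [h5, hne.1.symm]
      · simp [h2.symm, h4.symm, hck.symm]
      · simp [hzk.symm, h1.symm, h3.symm, hcz.symm]
    have := card_le_card hsub
    omega
  rcases this with rfl | rfl
  · exact ⟨d', h3, h7, h8⟩
  · refine ⟨c', h1, h6, fun g => ?_⟩
    rw [h8 g]; ring

/-- The local lemma in the presence of a star. -/
lemma local_star (F : Finset E) (hF : F.card = 4) (t : E → ℝ) (ht0 : ∀ e ∈ F, 0 < t e)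
    (ht1 : ∀ e ∈ F, t e < 1) (hs : ∑ e ∈ F, t e = 2) (n : Fin 3 → ℝ) (p : E → Fin 3 → ℝ)
    (hp0 : ∀ e i, 0 ≤ p e i) (hp1 : ∀ e i, p e i ≤ n i) (z : E) (hz : z ∈ F)
    (hstar : ∀ k ∈ F, k ≠ z → t z + t k ≤ 1) :
    (∃ k ∈ F, ∀ i, (∑ e ∈ F, t e * p e i) - n i ≤ p k i ∧ p k i ≤ ∑ e ∈ F, t e * p e i) ∨
    (∃ k ∈ F, ∀ i, (∑ e ∈ F, (1 - t e) * p e i) - n i ≤ p k i ∧
      p k i ≤ ∑ e ∈ F, (1 - t e) * p e i) := by
  by_contra hcon
  push Not at hcon
  obtain ⟨hA, hB⟩ := hcon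
  have hA' : ∀ k ∈ F, ∃ i, (∑ e ∈ F, t e * p e i) < p k i ∨
      p k i < (∑ e ∈ F, t e * p e i) - n i := by
    intro k hk
    obtain ⟨i, hi⟩ := hA k hk
    refine ⟨i, ?_⟩
    by_contra h
    push Not at h
    exact absurd (hi h.2) (not_lt.2 h.1)
  obtain ⟨i0, hi0⟩ := hB z hz
  have hB0 : (∑ e ∈ F, (1 - t e) * p e i0) < p z i0 ∨
      p z i0 < (∑ e ∈ F, (1 - t e) * p e i0) - n i0 := by
    by_contra h
    push Not at h
    exact absurd (hi0 h.2) (not_lt.2 h.1)
  choose! f hf using hA'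
  have hmaps : ∀ k ∈ F.erase z, f k ∈ (univ : Finset (Fin 3)).erase i0 := by
    intro k hk
    obtain ⟨hkz, hkF⟩ := mem_erase.1 hk
    refine mem_erase.2 ⟨?_, mem_univ _⟩
    intro hfk
    have hAk := hf k hkF
    rw [hfk] at hAk
    obtain ⟨c, d, hcz, hck, hdz, hdk, hcd, hc, hd, hsum⟩ := four_split hF hz hkF hkz
    rw [hsum] at hAk hB0 hs
    exact coord_G1 (ht0 z hz) (ht0 k hkF) (ht0 c hc) (ht0 d hd) (ht1 z hz) (ht1 k hkF) (ht1 c hc)
      (ht1 d hd) hs (hstar k hkF hkz) (hstar c hc hcz) (hstar d hd hdz) (hp0 z i0) (hp0 k i0)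
      (hp0 c i0) (hp0 d i0) (hp1 z i0) (hp1 k i0) (hp1 c i0) (hp1 d i0) hB0 hAk
  have hcard : ((univ : Finset (Fin 3)).erase i0).card < (F.erase z).card := by
    rw [card_erase_of_mem (mem_univ _), card_erase_of_mem hz, hF]
    simp
  obtain ⟨k, hk, c, hc, hkc, hfe⟩ := exists_ne_map_eq_of_card_lt_of_maps_to hcard hmaps
  obtain ⟨hkz, hkF⟩ := mem_erase.1 hk
  obtain ⟨hcz, hcF⟩ := mem_erase.1 hc
  obtain ⟨d, hdz, hd, hsum⟩ := four_split3 hF hz hkF hcF hkz hcz hkc.symm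
  have hAk := hf k hkF
  have hAc := hf c hcF
  rw [← hfe] at hAc
  rw [hsum] at hAk hAc hs
  exact coord_G2 (ht0 z hz) (ht0 k hkF) (ht0 c hcF) (ht0 d hd) hs (hstar d hd hdz) (hp0 z _)
    (hp0 k _) (hp0 c _) (hp0 d _) (hp1 z _) (hp1 k _) (hp1 c _) (hp1 d _) hAk hAc

/-- The local lemma. -/
lemma local_lemma (F : Finset E) (hF : F.card = 4) (t : E → ℝ) (ht0 : ∀ e ∈ F, 0 < t e)
    (ht1 : ∀ e ∈ F, t e < 1) (hs : ∑ e ∈ F, t e = 2) (n : Fin 3 → ℝ) (p : E → Fin 3 → ℝ)
    (hp0 : ∀ e i, 0 ≤ p e i) (hp1 : ∀ e i, p e i ≤ n i) :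
    (∃ k ∈ F, ∀ i, (∑ e ∈ F, t e * p e i) - n i ≤ p k i ∧ p k i ≤ ∑ e ∈ F, t e * p e i) ∨
    (∃ k ∈ F, ∀ i, (∑ e ∈ F, (1 - t e) * p e i) - n i ≤ p k i ∧
      p k i ≤ ∑ e ∈ F, (1 - t e) * p e i) := by
  have hne : F.Nonempty := card_pos.1 (by omega)
  obtain ⟨z, hz, hzmin⟩ := exists_min_image F t hne
  obtain ⟨w, hw, hwmax⟩ := exists_max_image F t hne
  by_cases h : t z + t w ≤ 1
  · exact local_star F hF t ht0 ht1 hs n p hp0 hp1 z hz
      (fun k hk _ => le_trans (by linarith [hwmax k hk]) h)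
  · push Not at h
    have hs' : ∑ e ∈ F, (1 - t e) = 2 := by
      rw [sum_sub_distrib, hs]; simp [hF]; norm_num
    have := local_star F hF (fun e => 1 - t e) (fun e he => by linarith [ht1 e he])
      (fun e he => by linarith [ht0 e he]) hs' n p hp0 hp1 w hw
      (fun k hk _ => by linarith [hzmin k hk])
    rcases this with h1 | h1
    · exact Or.inr h1
    · left
      simpa using h1

end

end Pool.Agent.R6.Trade
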