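import Pool.Agent.R6.Trade.Core

/-!
The reduction theorem for three coordinates.
-/

namespace Pool.Agent.R6.Trade

open Finset

variable {E : Type*} [Fintype E] [DecidableEq E]

variable {j : ℕ} {X : Finset E} {n : Fin 3 → ℝ} {p : E → Fin 3 → ℝ} {s : Fin 3 → ℝ}

/-- The combinatorial contradiction, in the case where at most two coordinates of X vary. -/
lemma final_aux (hj : 4 ≤ j) (hX : X.card = j) (hXc : Xᶜ.card = j) {w v v' : E → ℝ}
    (hv : InCube v) (hv' : InCube v') (hw : InCube w)
    (hO : ones w ⊆ ones v) (hO' : ones w ⊆ ones v') (hZ : zers w ⊆ zers v)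
    (hZ' : zers w ⊆ zers v') (hF5 : (frac w).card ≤ 5) (hFX : (frac w ∩ X).card ≤ 2)
    (h1 : (j : ℝ) - 2 < ∑ e ∈ X, v e) (h2 : ones v ⊆ X ∨ zers v ⊆ Xᶜ)
    (h3 : ∑ e ∈ X, v' e < 2) (h4 : ones v' ⊆ Xᶜ ∨ zers v' ⊆ X) : False := by
  -- integral parts
  have hsplitX : ∀ B : Finset E, B.card = (ones w ∩ B).card + (zers w ∩ B).card +
      (frac w ∩ B).card := by
    intro B
    have hd1 : Disjoint (ones w ∩ B) (zers w ∩ B) := by
      rw [disjoint_left]
      intro e he he'
      have a := mem_ones.1 (mem_inter.1 he).1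
      have b := mem_zers.1 (mem_inter.1 he').1
      linarith
    have hd2 : Disjoint (ones w ∩ B ∪ zers w ∩ B) (frac w ∩ B) := by
      rw [disjoint_left]
      intro e he he'
      have b := mem_frac.1 (mem_inter.1 he').1
      rcases mem_union.1 he with h' | h'
      · have a := mem_ones.1 (mem_inter.1 h').1
        linarith [b.2]
      · have a := mem_zers.1 (mem_inter.1 h').1
        linarith [b.1]
    rw [← card_union_of_disjoint hd1, ← card_union_of_disjoint hd2]
    congr 1
    ext e
    simp only [mem_union, mem_inter]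
    constructor
    · intro he
      rcases cases_cube hw e with h' | h' | h'
      · exact Or.inl (Or.inl ⟨h', he⟩)
      · exact Or.inl (Or.inr ⟨h', he⟩)
      · exact Or.inr ⟨h', he⟩
    · rintro ((h' | h') | h')
      · exact h'.2
      · exact h'.2
      · exact h'.2
  have hsX := hsplitX X
  have hsXc := hsplitX Xᶜ
  have hsF : (frac w).card = (frac w ∩ X).card + (frac w ∩ Xᶜ).card := by
    rw [← card_union_of_disjoint, ← inter_union_distrib_left, union_compl, inter_univ]
    exact disjoint_of_subset_left inter_subset_right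
      (disjoint_of_subset_right inter_subset_right disjoint_compl_right)
  -- upper bound of the sum of v over X
  have hup : ∑ e ∈ X, v e ≤ (ones w ∩ X).card + (frac w ∩ X).card := by
    have hc : ∑ e ∈ X, v e ≤ ∑ e ∈ X, (if e ∈ zers w then (0 : ℝ) else 1) := by
      apply sum_le_sum
      intro e _
      split_ifs with h'
      · exact (mem_zers.1 (hZ h')).le
      · exact (hv e).2
    have hc2 : ∑ e ∈ X, (if e ∈ zers w then (0 : ℝ) else 1) = (X.card : ℝ) - (zers w ∩ X).card := by
      have : ∑ e ∈ X, (if e ∈ zers w then (0 : ℝ) else 1) =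
          ∑ e ∈ X, (1 - (if e ∈ zers w then (1 : ℝ) else 0)) :=
        sum_congr rfl (fun e _ => by split_ifs <;> ring)
      rw [this, sum_sub_distrib, sum_boole, filter_mem_eq_inter, inter_comm]
      simp
    rw [hc2] at hc
    have : (X.card : ℝ) = (ones w ∩ X).card + (zers w ∩ X).card + (frac w ∩ X).card := by
      exact_mod_cast hsX
    linarith
  have hlo : ((ones w ∩ X).card : ℝ) ≤ ∑ e ∈ X, v' e :=
    sum_ge_card hv' inter_subset_right (fun e he => mem_ones.1 (hO' (mem_inter.1 he).1))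
  have c1 : (ones w ∩ X).card < 2 := by
    have : ((ones w ∩ X).card : ℝ) < 2 := lt_of_le_of_lt hlo h3
    exact_mod_cast this
  have c2 : j < (ones w ∩ X).card + (frac w ∩ X).card + 2 := by
    have : (j : ℝ) < (ones w ∩ X).card + (frac w ∩ X).card + 2 := by linarith
    exact_mod_cast this
  have e1 : (ones w ∩ X).card = 1 := by omega
  have e2 : (zers w ∩ X).card = 1 := by omega
  obtain ⟨a, ha⟩ := card_pos.1 (by omega : 0 < (ones w ∩ X).card)
  obtain ⟨b, hb⟩ := card_pos.1 (by omega : 0 < (zers w ∩ X).card)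
  have ha' := mem_inter.1 ha
  have hb' := mem_inter.1 hb
  have h2' : ones v ⊆ X := by
    rcases h2 with h | h
    · exact h
    · exact absurd hb'.2 (mem_compl.1 (h (hZ hb'.1)))
  have h4' : zers v' ⊆ X := by
    rcases h4 with h | h
    · exact absurd ha'.2 (mem_compl.1 (h (hO' ha'.1)))
    · exact h
  have e3 : (ones w ∩ Xᶜ).card = 0 := by
    rw [card_eq_zero, ← not_nonempty_iff_eq_empty]
    rintro ⟨c, hc⟩
    exact (mem_compl.1 (mem_inter.1 hc).2) (h2' (hO (mem_inter.1 hc).1))
  have e4 : (zers w ∩ Xᶜ).card = 0 := by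
    rw [card_eq_zero, ← not_nonempty_iff_eq_empty]
    rintro ⟨c, hc⟩
    exact (mem_compl.1 (mem_inter.1 hc).2) (h4' (hZ' (mem_inter.1 hc).1))
  omega

lemma ones_subset_of_step {w d : E → ℝ} {r : ℝ} (hd : ∀ e, d e ≠ 0 → e ∈ frac w) :
    ones w ⊆ ones (fun e => w e + r * d e) ∧ zers w ⊆ zers (fun e => w e + r * d e) := by
  constructor
  · intro e he
    rw [mem_ones] at he ⊢
    have : d e = 0 := by
      by_contra h
      have := (mem_frac.1 (hd e h)).2
      linarith
    simp [this, he]
  · intro e he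
    rw [mem_zers] at he ⊢
    have : d e = 0 := by
      by_contra h
      have := (mem_frac.1 (hd e h)).1
      linarith
    simp [this, he]

/-- The core theorem: the situation is contradictory. -/
theorem Sit.false (h : Sit j X n p s) : False := by
  classical
  -- linear functionals : total, the three coordinates, sum over X
  let L5 : (E → ℝ) →ₗ[ℝ] (Fin 5 → ℝ) :=
    LinearMap.pi ![(∑ e, LinearMap.proj e), (∑ e, p e 0 • LinearMap.proj e),
      (∑ e, p e 1 • LinearMap.proj e), (∑ e, p e 2 • LinearMap.proj e),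
      (∑ e ∈ X, LinearMap.proj e)]
  let L4 : (E → ℝ) →ₗ[ℝ] (Fin 4 → ℝ) :=
    LinearMap.pi ![(∑ e, LinearMap.proj e), (∑ e, p e 0 • LinearMap.proj e),
      (∑ e, p e 1 • LinearMap.proj e), (∑ e, p e 2 • LinearMap.proj e)]
  have hL5 : ∀ t, L5 t = ![∑ e, t e, ∑ e, p e 0 * t e, ∑ e, p e 1 * t e, ∑ e, p e 2 * t e,
      ∑ e ∈ X, t e] := by
    intro t
    funext i
    fin_cases i <;> simp [L5]
  have hL4 : ∀ t, L4 t = ![∑ e, t e, ∑ e, p e 0 * t e, ∑ e, p e 1 * t e, ∑ e, p e 2 * t e] := by
    intro t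
    funext i
    fin_cases i <;> simp [L4]
  have hj4 := h.hj
  have hj0 : (4 : ℝ) ≤ j := by exact_mod_cast hj4
  -- starting point
  let t0 : E → ℝ := fun e => if e ∈ X then 2 / j else 1 - 2 / j
  have h2j : (2 : ℝ) / j ≤ 1 := by rw [div_le_one (by linarith)]; linarith
  have h2j0 : (0 : ℝ) ≤ 2 / j := by positivity
  have ht0 : InCube t0 := by
    intro e
    simp only [t0]
    split_ifs
    · exact ⟨h2j0, h2j⟩
    · constructor <;> linarith
  have hw0 : ∀ g : E → ℝ, ∑ e, g e * t0 e =
      2 / j * ∑ e ∈ X, g e + (1 - 2 / j) * ∑ e ∈ Xᶜ, g e := by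
    intro g
    rw [← sum_add_sum_compl X, mul_sum, mul_sum]
    congr 1
    · exact sum_congr rfl (fun e he => by simp [t0, he, mul_comm])
    · exact sum_congr rfl (fun e he => by simp [t0, mem_compl.1 he, mul_comm])
  have hjne : (j : ℝ) ≠ 0 := by linarith
  have k0 : ∑ e, t0 e = j := by
    have := hw0 (fun _ => 1)
    simp only [one_mul, sum_const, nsmul_eq_mul, mul_one, h.hX, h.hXc] at this
    rw [this]; field_simp; ring
  have kp : ∀ i, ∑ e, p e i * t0 e = s i := by
    intro i
    rw [hw0 (fun e => p e i), h.sX, h.sXc]; ring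
  have kX : ∑ e ∈ X, t0 e = 2 := by
    have : ∑ e ∈ X, t0 e = ∑ e ∈ X, (2 / j : ℝ) := sum_congr rfl (fun e he => by simp [t0, he])
    rw [this, sum_const, h.hX, nsmul_eq_mul]; field_simp
  obtain ⟨w, hwc, hLw, hw5⟩ := exists_reduce L5 (frac t0).card t0 ht0 le_rfl
  rw [hL5, hL5] at hLw
  have q0 : ∑ e, w e = j := by
    have := congrFun hLw 0
    simp at this; rw [this, k0]
  have qp : ∀ i, ∑ e, w e * p e i = s i := by
    intro i
    have e1 : ∑ e, w e * p e i = ∑ e, p e i * w e := sum_congr rfl (fun e _ => mul_comm _ _)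
    rw [e1, ← kp i]
    fin_cases i
    · have := congrFun hLw 1; simpa using this
    · have := congrFun hLw 2; simpa using this
    · have := congrFun hLw 3; simpa using this
  have qX : ∑ e ∈ X, w e = 2 := by
    have := congrFun hLw 4
    simp at this; rw [this, kX]
  by_cases hw4 : (frac w).card ≤ 4
  · rcases endpoint h hwc q0 qp hw4 with ⟨h1, -⟩ | ⟨h1, -⟩
    · linarith
    · linarith
  · push Not at hw4
    obtain ⟨d0, hd0, hsupp0, hLd0⟩ := exists_ker (frac w) L4 hw4
    -- choose the sign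
    obtain ⟨d, hd, hsupp, hLd, hdX⟩ : ∃ d : E → ℝ, d ≠ 0 ∧ (∀ e, d e ≠ 0 → e ∈ frac w) ∧
        L4 d = 0 ∧ 0 ≤ ∑ e ∈ X, d e := by
      by_cases hs : 0 ≤ ∑ e ∈ X, d0 e
      · exact ⟨d0, hd0, hsupp0, hLd0, hs⟩
      · refine ⟨-d0, neg_ne_zero.2 hd0, fun e he => hsupp0 e (by simpa using he), by simp [hLd0], ?_⟩
        simp only [Pi.neg_apply, sum_neg_distrib]
        linarith
    rw [hL4] at hLd
    have r0 : ∑ e, d e = 0 := by
      have := congrFun hLd 0; simpa using this
    have rp : ∀ i, ∑ e, d e * p e i = 0 := by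
      intro i
      have e1 : ∑ e, d e * p e i = ∑ e, p e i * d e := sum_congr rfl (fun e _ => mul_comm _ _)
      rw [e1]
      fin_cases i
      · have := congrFun hLd 1; simpa using this
      · have := congrFun hLd 2; simpa using this
      · have := congrFun hLd 3; simpa using this
    obtain ⟨a, ha, hva, hfa⟩ := exists_step w d hwc hd hsupp
    obtain ⟨b, hb, hvb, hfb⟩ := exists_step w (-d) hwc (neg_ne_zero.2 hd)
      (fun e he => hsupp e (by simpa using he))
    have sumlin : ∀ (r : ℝ) (d : E → ℝ), (∑ e, d e = 0) → (∀ i, ∑ e, d e * p e i = 0) →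
        (∑ e, (w e + r * d e) = j) ∧ ∀ i, ∑ e, (w e + r * d e) * p e i = s i := by
      intro r d r0 rp
      constructor
      · rw [sum_add_distrib, ← mul_sum, r0, q0]; ring
      · intro i
        have : ∑ e, (w e + r * d e) * p e i = ∑ e, w e * p e i + r * ∑ e, d e * p e i := by
          rw [mul_sum, ← sum_add_distrib]
          exact sum_congr rfl (fun e _ => by ring)
        rw [this, qp, rp]; ring
    have la := sumlin a d r0 rp
    have lb := sumlin b (-d) (by simp [r0]) (fun i => by simp [rp i])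
    have hca : (frac (fun e => w e + a * d e)).card ≤ 4 := by
      have := card_lt_card hfa; omega
    have hcb : (frac (fun e => w e + b * (-d) e)).card ≤ 4 := by
      have := card_lt_card hfb; omega
    have na := endpoint h hva la.1 la.2 hca
    have nb := endpoint h hvb lb.1 lb.2 hcb
    have fa : 2 ≤ ∑ e ∈ X, (w e + a * d e) := by
      rw [sum_add_distrib, ← mul_sum, qX]
      nlinarith
    have fb : ∑ e ∈ X, (w e + b * (-d) e) ≤ 2 := by
      rw [sum_add_distrib, ← mul_sum, qX]
      simp only [Pi.neg_apply, sum_neg_distrib]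
      nlinarith
    obtain ⟨hOa, hZa⟩ := ones_subset_of_step (r := a) hsupp
    obtain ⟨hOb, hZb⟩ := ones_subset_of_step (w := w) (d := -d) (r := b)
      (fun e he => hsupp e (by simpa using he))
    rcases na with ⟨h1, h2⟩ | ⟨h1, -⟩
    swap
    · linarith
    rcases nb with ⟨h3, -⟩ | ⟨h3, h4⟩
    · linarith
    have hsF : (frac w).card = (frac w ∩ X).card + (frac w ∩ Xᶜ).card := by
      rw [← card_union_of_disjoint, ← inter_union_distrib_left, union_compl, inter_univ]
      exact disjoint_of_subset_left inter_subset_right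
        (disjoint_of_subset_right inter_subset_right disjoint_compl_right)
    by_cases hFX : (frac w ∩ X).card ≤ 2
    · exact final_aux h.hj h.hX h.hXc hva hvb hwc hOa hOb hZa hZb hw5 hFX h1 h2 h3 h4
    · have hFXc : (frac w ∩ Xᶜ).card ≤ 2 := by omega
      refine final_aux (X := Xᶜ) h.hj h.hXc (by rw [compl_compl]; exact h.hX) hvb hva hwc hOb hOa
        hZb hZa hw5 hFXc ?_ ?_ ?_ ?_
      · rw [sum_X_compl lb.1]; linarith
      · rw [compl_compl]; exact h4
      · rw [sum_X_compl la.1]; linarith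
      · rw [compl_compl]; exact h2

/-- Existence form. -/
theorem exists_mixed (hj : 4 ≤ j) (hX : X.card = j) (hXc : Xᶜ.card = j)
    (p0 : ∀ e i, 0 ≤ p e i) (p1 : ∀ e i, p e i ≤ n i)
    (hs : ∀ i, ∑ e ∈ X, p e i = ∑ e ∈ Xᶜ, p e i) :
    ∃ U : Finset E, U.card = j + 1 ∧ ¬ X ⊆ U ∧ ¬ Xᶜ ⊆ U ∧
      ∀ i, ∑ e ∈ X, p e i ≤ ∑ e ∈ U, p e i ∧ ∑ e ∈ U, p e i ≤ ∑ e ∈ X, p e i + n i := by
  by_contra hcon
  push Not at hcon
  have h : Sit j X n p (fun i => ∑ e ∈ X, p e i) :=
    ⟨hj, hX, hXc, p0, p1, fun i => rfl, fun i => (hs i).symm, fun U hU hb => by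
      by_contra hne
      push Not at hne
      obtain ⟨i, hi⟩ := hcon U hU hne.1 hne.2
      exact absurd (hi (hb i).1) (not_lt.2 (hb i).2)⟩
  exact h.false

end Pool.Agent.R6.Trade
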