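import Pool.Agent.R6.Trade.Game

/-!
Type vectors of coalitions, invariance, cyclic realization, reduction of trades for three types.
-/

namespace Pool.Agent.R6.Trade

open Finset

section vec
variable {N : Type} [DecidableEq N] {t : ℕ}

/-- the type vector of a coalition -/
def vec (τ : N → Fin t) (S : Finset N) (i : Fin t) : ℕ := (S.filter (fun v => τ v = i)).card

lemma vec_swap (τ : N → Fin t) {S : Finset N} {a b : N} (ha : a ∈ S) (hb : b ∉ S)
    (hab : τ a = τ b) : vec τ (insert b (S.erase a)) = vec τ S := by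
  funext i
  unfold vec
  rw [filter_insert, filter_erase]
  by_cases h : τ b = i
  · rw [if_pos h, card_insert_of_notMem, card_erase_of_mem]
    · have : a ∈ S.filter (fun v => τ v = i) := mem_filter.2 ⟨ha, hab.trans h⟩
      have := card_pos.2 ⟨a, this⟩
      omega
    · exact mem_filter.2 ⟨ha, hab.trans h⟩
    · simp [hb]
  · rw [if_neg h, erase_eq_of_notMem]
    simp [hab, h]

/-- Invariance of the winning property under equality of type vectors. -/
lemma win_of_vec_eq {W : Finset N → Prop} (hmono : ∀ S T : Finset N, S ⊆ T → W S → W T)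
    (τ : N → Fin t) (hτ : ∀ a b, τ a = τ b → AtLeast W a b) (k : ℕ) :
    ∀ S S' : Finset N, (S \ S').card = k → vec τ S = vec τ S' → W S → W S' := by
  induction k with
  | zero =>
    intro S S' hk _ hW
    rw [card_eq_zero, sdiff_eq_empty_iff_subset] at hk
    exact hmono _ _ hk hW
  | succ k ih =>
    intro S S' hk hv hW
    obtain ⟨a, ha⟩ := card_pos.1 (by omega : 0 < (S \ S').card)
    have ha' := mem_sdiff.1 ha
    -- find b
    have hb : ∃ b, b ∈ S' ∧ b ∉ S ∧ τ b = τ a := by
      by_contra hcon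
      push Not at hcon
      have hsub : S'.filter (fun v => τ v = τ a) ⊆ (S.filter (fun v => τ v = τ a)).erase a := by
        intro b hb
        have hb' := mem_filter.1 hb
        have hbS : b ∈ S := by
          by_contra h
          exact hcon b hb'.1 h hb'.2
        refine mem_erase.2 ⟨?_, mem_filter.2 ⟨hbS, hb'.2⟩⟩
        rintro rfl
        exact ha'.2 hb'.1
      have h1 := card_le_card hsub
      have haS : a ∈ S.filter (fun v => τ v = τ a) := mem_filter.2 ⟨ha'.1, rfl⟩
      rw [card_erase_of_mem haS] at h1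
      have h2 := card_pos.2 ⟨a, haS⟩
      have h3 := congrFun hv (τ a)
      unfold vec at h3
      omega
    obtain ⟨b, hbS', hbS, hab⟩ := hb
    have hv1 := vec_swap τ ha'.1 hbS hab.symm
    apply ih (insert b (S.erase a)) S' _ (hv1.trans hv)
    · apply hτ b a hab (S.erase a)
      · simp [hbS]
      · simp
      · rwa [insert_erase ha'.1]
    · have : insert b (S.erase a) \ S' = (S \ S').erase a := by
        ext x
        simp only [mem_sdiff, mem_insert, mem_erase]
        constructor
        · rintro ⟨rfl | h, h2⟩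
          · exact absurd hbS' h2
          · exact ⟨h.1, h.2, h2⟩
        · rintro ⟨h1, h2, h3⟩
          exact ⟨Or.inr ⟨h1, h2⟩, h3⟩
      rw [this, card_erase_of_mem ha]
      omega

end vec

section cyc

/-- cyclic block -/
def cyc (x : ℕ → ℕ) (n k : ℕ) : Finset ℕ :=
  (range (x k)).image (fun r => ((∑ l ∈ range k, x l) + r) % n)

lemma cyc_inj {x : ℕ → ℕ} {n k : ℕ} (hx : x k ≤ n) :
    Set.InjOn (fun r => ((∑ l ∈ range k, x l) + r) % n) (range (x k) : Set ℕ) := by
  intro r hr r' hr' h
  have h1 : (∑ l ∈ range k, x l) + r ≡ (∑ l ∈ range k, x l) + r' [MOD n] := h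
  have h2 := Nat.ModEq.add_left_cancel' _ h1
  rw [mem_coe, mem_range] at hr hr'
  exact Nat.ModEq.eq_of_lt_of_lt h2 (by omega) (by omega)

lemma cyc_card {x : ℕ → ℕ} {n k : ℕ} (hx : x k ≤ n) : (cyc x n k).card = x k := by
  unfold cyc
  rw [card_image_of_injOn (cyc_inj hx), card_range]

lemma cyc_lt {x : ℕ → ℕ} {n k m : ℕ} (hx : x k ≤ n) (hm : m ∈ cyc x n k) : m < n := by
  unfold cyc at hm
  obtain ⟨r, hr, rfl⟩ := mem_image.1 hm
  rw [mem_range] at hr
  exact Nat.mod_lt _ (by omega)

lemma cyc_count (x : ℕ → ℕ) (n m : ℕ) : ∀ J : ℕ, (∀ k < J, x k ≤ n) →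
    ((range (∑ l ∈ range J, x l)).filter (fun q => q % n = m)).card =
      ∑ k ∈ range J, (if m ∈ cyc x n k then 1 else 0) := by
  intro J
  induction J with
  | zero => intro _; simp
  | succ J ih =>
    intro h
    rw [sum_range_succ, sum_range_succ, ← ih (fun k hk => h k (by omega)), card_filter, card_filter,
      sum_range_add]
    congr 1
    have hJ := h J (by omega)
    by_cases hm : m ∈ cyc x n J
    · rw [if_pos hm]
      unfold cyc at hm
      obtain ⟨r, hr, hrm⟩ := mem_image.1 hm
      rw [sum_eq_single_of_mem r hr]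
      · rw [if_pos hrm]
      · intro r' hr' hne
        rw [if_neg]
        intro h'
        exact hne (cyc_inj hJ (mem_coe.2 hr') (mem_coe.2 hr) (h'.trans hrm.symm))
    · rw [if_neg hm]
      apply sum_eq_zero
      intro r hr
      rw [if_neg]
      intro h'
      exact hm (mem_image.2 ⟨r, hr, h'⟩)

end cyc

section realize
variable {N : Type} [Fintype N] [DecidableEq N] {t : ℕ}

/-- class sizes -/
def nn (τ : N → Fin t) (i : Fin t) : ℕ := (univ.filter (fun v => τ v = i)).card

/-- Balanced realization of vectors by coalitions. -/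
theorem realize (τ : N → Fin t) : ∃ g : N → ℕ → ℕ, ∀ (J : ℕ) (x : Fin J → Fin t → ℕ),
    (∀ k i, x k i ≤ nn τ i) → ∃ X : Fin J → Finset N, (∀ k, vec τ (X k) = x k) ∧
      ∀ v, (univ.filter (fun k => v ∈ X k)).card = g v (∑ k, x k (τ v)) := by
  classical
  let fib : Fin t → Finset N := fun i => univ.filter (fun v => τ v = i)
  have hfib : ∀ v, v ∈ fib (τ v) := fun v => by simp [fib]
  let idx : N → ℕ := fun v => ((fib (τ v)).equivFin ⟨v, hfib v⟩ : ℕ)
  have hidx : ∀ (i : Fin t) (v : N) (hv : v ∈ fib i), idx v = ((fib i).equivFin ⟨v, hv⟩ : ℕ) := by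
    intro i v hv
    have : τ v = i := (mem_filter.1 hv).2
    subst this
    rfl
  refine ⟨fun v s => ((range s).filter (fun q => q % nn τ (τ v) = idx v)).card, ?_⟩
  intro J x hx
  let x' : Fin t → ℕ → ℕ := fun i l => if h : l < J then x ⟨l, h⟩ i else 0
  have hx'1 : ∀ (k : Fin J) i, x' i k = x k i := by
    intro k i
    simp [x']
  have hx'2 : ∀ i, ∀ k < J, x' i k ≤ nn τ i := by
    intro i k hk
    have := hx'1 ⟨k, hk⟩ i
    simp only at this
    rw [this]
    exact hx _ _
  refine ⟨fun k => univ.filter (fun v => idx v ∈ cyc (x' (τ v)) (nn τ (τ v)) k), ?_, ?_⟩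
  · intro k
    funext i
    rw [← hx'1 k i, ← cyc_card (hx'2 i k k.2)]
    unfold vec
    rw [filter_filter]
    apply card_nbij idx
    · intro v hv
      obtain ⟨-, h1, h2⟩ := mem_filter.1 hv
      rw [h2] at h1
      exact h1
    · intro v hv w hw hvw
      obtain ⟨-, h1, h2⟩ := mem_filter.1 (mem_coe.1 hv)
      obtain ⟨-, h1', h2'⟩ := mem_filter.1 (mem_coe.1 hw)
      have hvf : v ∈ fib i := mem_filter.2 ⟨mem_univ _, h2⟩
      have hwf : w ∈ fib i := mem_filter.2 ⟨mem_univ _, h2'⟩
      rw [hidx i v hvf, hidx i w hwf] at hvw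
      have := (fib i).equivFin.injective (Fin.ext hvw)
      exact congrArg Subtype.val this
    · intro m hm
      have hm' := cyc_lt (hx'2 i k k.2) (mem_coe.1 hm)
      let v := (fib i).equivFin.symm ⟨m, hm'⟩
      have hv2 : τ v.1 = i := (mem_filter.1 v.2).2
      have hvi : idx v.1 = m := by
        rw [hidx i v.1 v.2]
        simp [v]
      refine ⟨v.1, ?_, hvi⟩
      rw [mem_coe, mem_filter]
      refine ⟨mem_univ _, ?_, hv2⟩
      rw [hv2, hvi]
      exact mem_coe.1 hm
  · intro v
    have h1 : (univ.filter (fun k : Fin J => v ∈ univ.filter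
        (fun v => idx v ∈ cyc (x' (τ v)) (nn τ (τ v)) k))).card =
        ∑ k ∈ range J, (if idx v ∈ cyc (x' (τ v)) (nn τ (τ v)) k then 1 else 0) := by
      rw [card_filter, ← Fin.sum_univ_eq_sum_range
        (fun k => if idx v ∈ cyc (x' (τ v)) (nn τ (τ v)) k then 1 else 0) J]
      refine sum_congr rfl (fun k _ => ?_)
      simp
    rw [h1, ← cyc_count _ _ _ J (hx'2 (τ v)), ← Fin.sum_univ_eq_sum_range (x' (τ v)) J]
    simp only [hx'1]

end realize

section reduce

/-- a trade of vectors of size m in the box n for the predicate P -/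
def VT (n : Fin 3 → ℕ) (P : (Fin 3 → ℕ) → Prop) (m : ℕ) : Prop :=
  ∃ (ι : Type) (_ : Fintype ι) (_ : DecidableEq ι) (x y : ι → Fin 3 → ℕ), Fintype.card ι = m ∧
    (∀ k i, x k i ≤ n i) ∧ (∀ k i, y k i ≤ n i) ∧ (∀ k, P (x k)) ∧ (∀ k, ¬ P (y k)) ∧
    ∀ i, ∑ k, x k i = ∑ k, y k i

lemma reduce_one (n : Fin 3 → ℕ) (P : (Fin 3 → ℕ) → Prop) (m : ℕ) (hm : 4 ≤ m)
    (h : VT n P m) : ∃ m', 1 ≤ m' ∧ m' < m ∧ VT n P m' := by
  classical
  obtain ⟨ι, hι, hιd, x, y, hcard, hx, hy, hPx, hPy, hs⟩ := h
  let X : Finset (ι ⊕ ι) := univ.filter (fun e => e.isLeft)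
  let p : ι ⊕ ι → Fin 3 → ℝ := fun e i => (Sum.elim x y e i : ℕ)
  have hXs : ∀ g : ι ⊕ ι → ℝ, ∑ e ∈ X, g e = ∑ k, g (Sum.inl k) := by
    intro g
    rw [sum_filter, Fintype.sum_sum_type]
    simp
  have hXcs : ∀ g : ι ⊕ ι → ℝ, ∑ e ∈ Xᶜ, g e = ∑ k, g (Sum.inr k) := by
    intro g
    have h1 := sum_add_sum_compl X g
    rw [hXs, Fintype.sum_sum_type] at h1
    linarith
  have hXcard : X.card = m := by
    have := hXs (fun _ => 1)
    simp only [sum_const, nsmul_eq_mul, mul_one, card_univ] at this
    rw [hcard] at this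
    exact_mod_cast this
  have hXccard : Xᶜ.card = m := by
    have := hXcs (fun _ => 1)
    simp only [sum_const, nsmul_eq_mul, mul_one, card_univ] at this
    rw [hcard] at this
    exact_mod_cast this
  obtain ⟨U, hU, hXU, hXcU, hUs⟩ := exists_mixed (n := fun i => (n i : ℝ)) (p := p) hm hXcard
    hXccard (fun e i => by simp [p]) (fun e i => by
      simp only [p]
      rcases e with k | k
      · exact_mod_cast hx k i
      · exact_mod_cast hy k i) (fun i => by
      rw [hXs, hXcs]
      simp only [p, Sum.elim_inl, Sum.elim_inr]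
      exact_mod_cast hs i)
  let S : Finset ι := univ.filter (fun k => Sum.inl k ∈ U)
  let T : Finset ι := univ.filter (fun k => Sum.inr k ∉ U)
  -- sums over U
  have hUsum : ∀ g : ι ⊕ ι → ℝ, ∑ e ∈ U, g e =
      ∑ k ∈ S, g (Sum.inl k) + (∑ k, g (Sum.inr k) - ∑ k ∈ T, g (Sum.inr k)) := by
    intro g
    have h1 : ∑ e ∈ U, g e = ∑ e, if e ∈ U then g e else 0 := by rw [sum_ite_mem, univ_inter]
    rw [h1, Fintype.sum_sum_type, sum_filter, sum_filter, ← sum_sub_distrib]
    congr 1
    refine sum_congr rfl (fun k _ => ?_)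
    by_cases hk : Sum.inr k ∈ U <;> simp [hk]
  have hcST : S.card = T.card + 1 := by
    have h1 := hUsum (fun _ => 1)
    simp only [sum_const, nsmul_eq_mul, mul_one, card_univ] at h1
    rw [hU, hcard] at h1
    push_cast at h1
    have : (S.card : ℝ) = T.card + 1 := by linarith
    exact_mod_cast this
  have hTne : 1 ≤ T.card := by
    rw [Nat.one_le_iff_ne_zero, Ne, card_eq_zero]
    intro hT
    apply hXcU
    intro e he
    rcases e with k | k
    · simp [X] at he
    · by_contra hk
      have : k ∈ T := mem_filter.2 ⟨mem_univ _, hk⟩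
      rw [hT] at this
      exact notMem_empty k this
  have hSlt : S.card < m := by
    rw [← hcard]
    by_contra hge
    push Not at hge
    have : S = univ := eq_univ_of_card S (le_antisymm (card_le_univ _) hge)
    apply hXU
    intro e he
    rcases e with k | k
    · have : k ∈ S := by rw [this]; exact mem_univ k
      exact (mem_filter.1 this).2
    · simp [X] at he
  -- the new vector
  have hz : ∀ i, ∑ k ∈ T, y k i ≤ ∑ k ∈ S, x k i ∧
      ∑ k ∈ S, x k i ≤ ∑ k ∈ T, y k i + n i := by
    intro i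
    have h1 := hUs i
    rw [hUsum, hXs] at h1
    simp only [p, Sum.elim_inl, Sum.elim_inr] at h1
    have h2 : (∑ k, (x k i : ℝ)) = ∑ k, (y k i : ℝ) := by exact_mod_cast hs i
    constructor
    · have : (∑ k ∈ T, (y k i : ℝ)) ≤ ∑ k ∈ S, (x k i : ℝ) := by linarith [h1.1]
      exact_mod_cast this
    · have : (∑ k ∈ S, (x k i : ℝ)) ≤ ∑ k ∈ T, (y k i : ℝ) + n i := by linarith [h1.2]
      exact_mod_cast this
  let z : Fin 3 → ℕ := fun i => ∑ k ∈ S, x k i - ∑ k ∈ T, y k i
  have hzn : ∀ i, z i ≤ n i := fun i => by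
    have := hz i
    simp only [z]; omega
  have hcompl : ∀ (A : Finset ι) (g : ι → ℕ), ∑ k ∈ A, g k + ∑ k : {k // k ∉ A}, g k = ∑ k, g k := by
    intro A g
    rw [← sum_add_sum_compl A g]
    congr 1
    symm
    apply sum_subtype
    intro k; simp
  by_cases hP : P z
  · have e : Nonempty ({k // k ∉ T} ≃ Option {k // k ∉ S}) := by
      refine ⟨Fintype.equivOfCardEq ?_⟩
      rw [Fintype.card_option, Fintype.card_subtype_compl, Fintype.card_subtype_compl,
        Fintype.card_coe, Fintype.card_coe, hcard]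
      omega
    obtain ⟨e⟩ := e
    refine ⟨m - T.card, by omega, by omega, {k // k ∉ T}, inferInstance, inferInstance,
      fun k => (e k).elim z (fun l => x l), fun k => y k, ?_, ?_, ?_, ?_, ?_, ?_⟩
    · rw [Fintype.card_subtype_compl, Fintype.card_coe, hcard]
    · intro k i
      rcases h : e k with _ | l
      · simp only [h, Option.elim]; exact hzn i
      · simp only [h, Option.elim]; exact hx l i
    · intro k i; exact hy k i
    · intro k
      rcases h : e k with _ | l
      · simp only [h, Option.elim]; exact hP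
      · simp only [h, Option.elim]; exact hPx l
    · intro k; exact hPy k
    · intro i
      have h1 : ∑ k : {k // k ∉ T}, ((e k).elim z (fun l => x l)) i =
          ∑ o : Option {k // k ∉ S}, (o.elim z (fun l => x l)) i :=
        Equiv.sum_comp e (fun o => (o.elim z (fun l => x l)) i)
      rw [h1, Fintype.sum_option]
      simp only [Option.elim]
      have h2 := hcompl S (fun k => x k i)
      have h3 := hcompl T (fun k => y k i)
      have h4 := hs i
      have h5 := hz i
      simp only [z]
      omega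
  · have e : Nonempty ({k // k ∈ S} ≃ Option {k // k ∈ T}) := by
      refine ⟨Fintype.equivOfCardEq ?_⟩
      rw [Fintype.card_option, Fintype.card_coe, Fintype.card_coe, hcST]
    obtain ⟨e⟩ := e
    refine ⟨S.card, by omega, hSlt, {k // k ∈ S}, inferInstance, inferInstance,
      fun k => x k, fun k => (e k).elim z (fun l => y l), ?_, ?_, ?_, ?_, ?_, ?_⟩
    · rw [Fintype.card_coe]
    · intro k i; exact hx k i
    · intro k i
      rcases h : e k with _ | l
      · simp only [h, Option.elim]; exact hzn i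
      · simp only [h, Option.elim]; exact hy l i
    · intro k; exact hPx k
    · intro k
      rcases h : e k with _ | l
      · simp only [h, Option.elim]; exact hP
      · simp only [h, Option.elim]; exact hPy l
    · intro i
      have h1 : ∑ k : {k // k ∈ S}, ((e k).elim z (fun l => y l)) i =
          ∑ o : Option {k // k ∈ T}, (o.elim z (fun l => y l)) i :=
        Equiv.sum_comp e (fun o => (o.elim z (fun l => y l)) i)
      rw [h1, Fintype.sum_option]
      simp only [Option.elim]
      have h2 : ∑ k : {k // k ∈ S}, x k i = ∑ k ∈ S, x k i := sum_coe_sort S (fun k => x k i)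
      have h3 : ∑ k : {k // k ∈ T}, y k i = ∑ k ∈ T, y k i := sum_coe_sort T (fun k => y k i)
      rw [h2, h3]
      have h5 := hz i
      simp only [z]
      omega

lemma reduce (n : Fin 3 → ℕ) (P : (Fin 3 → ℕ) → Prop) (m : ℕ) :
    1 ≤ m → VT n P m → ∃ m', 1 ≤ m' ∧ m' ≤ 3 ∧ VT n P m' := by
  induction m using Nat.strong_induction_on with
  | _ m ih =>
    intro h1 h
    by_cases hm : m ≤ 3
    · exact ⟨m, h1, hm, h⟩
    · obtain ⟨m', h1', hlt, h'⟩ := reduce_one n P m (by omega) h
      exact ih m' hlt h1' h'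

end reduce

section main
variable {N : Type} [Fintype N] [DecidableEq N] {t : ℕ}

lemma vec_le (τ : N → Fin t) (S : Finset N) (i : Fin t) : vec τ S i ≤ nn τ i :=
  card_le_card (filter_subset_filter _ (subset_univ S))

lemma sum_vec (τ : N → Fin t) {J : ℕ} (X : Fin J → Finset N) (i : Fin t) :
    ∑ k, vec τ (X k) i = ∑ v ∈ univ.filter (fun v => τ v = i),
      (univ.filter (fun k => v ∈ X k)).card := by
  have h1 : ∀ k, vec τ (X k) i = ∑ v ∈ univ.filter (fun v => τ v = i), if v ∈ X k then 1 else 0 := by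
    intro k
    rw [← card_filter]
    unfold vec
    congr 1
    ext v
    simp [and_comm]
  rw [sum_congr rfl (fun k _ => h1 k), sum_comm]
  refine sum_congr rfl (fun v _ => ?_)
  rw [card_filter]

/-- **Three types suffice.** A simple game in which the voters fall into at most three classes of
equally desirable voters is weighted as soon as it is 3-trade robust. -/
theorem weighted_of_three_types {W : Finset N → Prop} (hS : IsSimple W) (τ : N → Fin 3)
    (hτ : ∀ a b, τ a = τ b → AtLeast W a b) (h3 : TradeRobust W 3) : Weighted W := by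
  classical
  by_contra hnw
  obtain ⟨J, X, Y, hJ, hX, hY, hXY⟩ := exists_trade hS hnw
  obtain ⟨hW0, hW1, hmono⟩ := hS
  have hinv : ∀ S S' : Finset N, vec τ S = vec τ S' → W S → W S' := fun S S' h hW =>
    win_of_vec_eq hmono τ hτ _ S S' rfl h hW
  let P : (Fin 3 → ℕ) → Prop := fun x => ∃ S : Finset N, vec τ S = x ∧ W S
  have hP : ∀ S : Finset N, P (vec τ S) ↔ W S := by
    intro S
    constructor
    · rintro ⟨S', h1, h2⟩
      exact hinv S' S h1 h2
    · intro h
      exact ⟨S, rfl, h⟩
  have hVT : VT (nn τ) P J := by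
    refine ⟨Fin J, inferInstance, inferInstance, fun k => vec τ (X k), fun k => vec τ (Y k),
      Fintype.card_fin J, fun k i => vec_le _ _ _, fun k i => vec_le _ _ _,
      fun k => (hP _).2 (hX k), fun k h => hY k ((hP _).1 h), fun i => ?_⟩
    rw [sum_vec, sum_vec]
    exact sum_congr rfl (fun v _ => hXY v)
  obtain ⟨m, hm1, hm3, ι, hι, hιd, x, y, hcard, hx, hy, hPx, hPy, hs⟩ := reduce _ _ J hJ hVT
  obtain ⟨g, hg⟩ := realize τ
  let e : Fin m ≃ ι := (Fintype.equivFinOfCardEq hcard).symm
  obtain ⟨X', hX'1, hX'2⟩ := hg m (fun k => x (e k)) (fun k i => hx _ i)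
  obtain ⟨Y', hY'1, hY'2⟩ := hg m (fun k => y (e k)) (fun k i => hy _ i)
  obtain ⟨k, hk⟩ := h3 m hm1 hm3 X' Y' (fun k => by
    rw [← hP, hX'1]; exact hPx _) (fun v => by
    rw [hX'2, hY'2]
    congr 1
    rw [Equiv.sum_comp e (fun k => x k (τ v)), Equiv.sum_comp e (fun k => y k (τ v)), hs])
  rw [← hP, hY'1] at hk
  exact hPy _ hk

end main

end Pool.Agent.R6.Trade
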